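import Mathlib

/-!
Systems of linear and quadratic forms with a rational point: definitions.
Folder Work/MP_b62148_ag/QP, namespace Pool.Agent.Work.PQP.
-/

namespace Pool.Agent.Work.PQP

open MvPolynomial

universe u

section Forms

variable {K : Type*} [Field K] {σ : Type*} [Fintype σ]

/-- a vector over an extension -/
def cv (R : Type*) [CommRing R] [Algebra K R] (y : σ → K) : σ → R := fun l => algebraMap K R (y l)

/-- the value of a linear form -/
def ln {R : Type*} [CommRing R] [Algebra K R] (L : σ → K) (x : σ → R) : R :=
  ∑ l, algebraMap K R (L l) * x l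

/-- a matrix times a vector -/
def mv {R : Type*} [CommRing R] [Algebra K R] (A : Matrix σ σ K) (x : σ → R) : σ → R :=
  fun l => ∑ l', algebraMap K R (A l l') * x l'

/-- the value of the bilinear form -/
def bf {R : Type*} [CommRing R] [Algebra K R] (A : Matrix σ σ K) (x y : σ → R) : R :=
  ∑ l, x l * mv A y l

/-- the linear form as a polynomial -/
noncomputable def lp (L : σ → K) : MvPolynomial σ K := ∑ l, C (L l) * X l

/-- the quadratic form as a polynomial -/
noncomputable def qp (A : Matrix σ σ K) : MvPolynomial σ K := ∑ l, X l * ∑ l', C (A l l') * X l'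

end Forms

section Sys

variable {K : Type*} [Field K] {σ : Type*} [Fintype σ] {μ : Type*} {b : ℕ}

/-- points of the system -/
def OnX (L : μ → σ → K) (A : Fin b → Matrix σ σ K) {R : Type*} [CommRing R] [Algebra K R]
    (x : σ → R) : Prop := (∀ m, ln (L m) x = 0) ∧ ∀ i, bf (A i) x x = 0

/-- smooth points of the system: independent gradients -/
def Smooth (L : μ → σ → K) (A : Fin b → Matrix σ σ K) {F : Type*} [Field F] [Algebra K F]
    (x : σ → F) : Prop :=
  LinearIndependent F (Sum.elim (fun m => cv F (L m)) (fun i => mv (A i) x))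

/-- the gradients at `x` and at `y` are independent -/
def Indep2 (L : μ → σ → K) (A : Fin b → Matrix σ σ K) {F : Type*} [Field F] [Algebra K F]
    (x y : σ → F) : Prop :=
  LinearIndependent F (Sum.elim (fun m => cv F (L m))
    (Sum.elim (fun i => mv (A i) x) (fun i => mv (A i) y)))

/-- the kernel of a combination of the quadratic forms on the zero space of the linear forms -/
def Ker (L : μ → σ → K) (A : Fin b → Matrix σ σ K) {F : Type*} [Field F] [Algebra K F]
    (w : Fin b → F) : Submodule F (σ → F) where
  carrier := {x | (∀ m, ln (L m) x = 0) ∧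
    ∑ i, w i • mv (A i) x ∈ Submodule.span F (Set.range fun m => cv F (L m))}
  add_mem' := by
    rintro x y ⟨h1, h2⟩ ⟨h3, h4⟩
    refine ⟨fun m => ?_, ?_⟩
    · have e : ln (L m) (x + y) = ln (L m) x + ln (L m) y := by
        simp only [ln, Pi.add_apply, mul_add, Finset.sum_add_distrib]
      rw [e, h1, h3, add_zero]
    · have e : ∑ i, w i • mv (A i) (x + y) =
          ∑ i, w i • mv (A i) x + ∑ i, w i • mv (A i) y := by
        rw [← Finset.sum_add_distrib]
        refine Finset.sum_congr rfl fun i _ => ?_
        rw [← smul_add]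
        congr 1
        funext l
        simp only [mv, Pi.add_apply, mul_add, Finset.sum_add_distrib]
      rw [e]
      exact Submodule.add_mem _ h2 h4
  zero_mem' := by
    refine ⟨fun m => by simp [ln], ?_⟩
    have e : ∑ i, w i • mv (A i) (0 : σ → F) = 0 := by
      refine Finset.sum_eq_zero fun i _ => ?_
      have : mv (A i) (0 : σ → F) = 0 := by
        funext l; simp [mv]
      rw [this, smul_zero]
    rw [e]
    exact Submodule.zero_mem _
  smul_mem' := by
    rintro c x ⟨h1, h2⟩
    refine ⟨fun m => ?_, ?_⟩
    · have e : ln (L m) (c • x) = c * ln (L m) x := by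
        simp only [ln, Pi.smul_apply, smul_eq_mul, Finset.mul_sum]
        exact Finset.sum_congr rfl fun l _ => by ring
      rw [e, h1, mul_zero]
    · have e : ∑ i, w i • mv (A i) (c • x) = c • ∑ i, w i • mv (A i) x := by
        rw [Finset.smul_sum]
        refine Finset.sum_congr rfl fun i _ => ?_
        rw [smul_comm c (w i)]
        congr 1
        funext l
        simp only [mv, Pi.smul_apply, smul_eq_mul, Finset.mul_sum]
        exact Finset.sum_congr rfl fun l _ => by ring
      rw [e]
      exact Submodule.smul_mem _ _ h2

end Sys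

/-- a good system with base point `y`: symmetric matrices, a smooth point, kernels of dimension at
most `κ` over every extension, enough variables -/
structure Good {K : Type u} [Field K] {σ : Type} [Fintype σ] {μ : Type} [Fintype μ] {b : ℕ}
    (L : μ → σ → K) (A : Fin b → Matrix σ σ K) (y : σ → K) (κ : ℕ) : Prop where
  symm : ∀ i l l', A i l l' = A i l' l
  mem : OnX L A y
  indep : Smooth L A y
  ker : ∀ (F : Type u) [Field F] [Algebra K F] (w : Fin b → F), w ≠ 0 →
    Module.finrank F (Ker L A w) ≤ κ
  num : Fintype.card μ + κ + b ^ 2 + 4 ≤ Fintype.card σ + b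

/-- a polynomial map into the zeros of the system that is dense at the smooth points -/
def Para {K : Type u} [Field K] {σ : Type} [Fintype σ] {μ : Type} {b : ℕ}
    (L : μ → σ → K) (A : Fin b → Matrix σ σ K) : Prop :=
  ∃ (m : ℕ) (P : σ → MvPolynomial (Fin m) K), OnX L A P ∧
    ∀ H : MvPolynomial σ K, aeval P H = 0 →
      ∀ (F : Type u) [Field F] [Algebra K F] [IsAlgClosed F] (x : σ → F), OnX L A x →
        Smooth L A x → aeval x H = 0

section Next

variable {K : Type*} [Field K] {K' : Type*} [Field K'] [Algebra K K'] {σ : Type*} [Fintype σ]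
  {μ : Type*} {b : ℕ}

/-- the combinations vanishing at the vector with values `f` -/
def nextA (A : Fin (b + 1) → Matrix σ σ K) (f : Fin (b + 1) → K') : Fin b → Matrix σ σ K' :=
  fun j => Matrix.of fun l l' => f 0 * algebraMap K K' (A j.succ l l') -
    f j.succ * algebraMap K K' (A 0 l l')

/-- the new linear forms -/
def nextL (L : μ → σ → K) (A : Fin (b + 1) → Matrix σ σ K) (y : σ → K) (f : Fin (b + 1) → K') :
    μ ⊕ Fin b → σ → K' :=
  Sum.elim (fun m => cv K' (L m)) (fun j => mv (nextA A f j) (cv K' y))

end Next

end Pool.Agent.Work.PQP
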