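import Mathlib
import Pool.Agent.Work.MP_b62148_ag.QP.DefsP
import Pool.Agent.Work.MP_b62148_ag.CI.Setup
import Pool.Agent.Work.MP_b62148_ag.CI.Config

/-!
A smooth complete intersection of quadrics with a rational point is a good system.
-/

namespace Pool.Agent.Work.PQP

open MvPolynomial Pool.Agent.Work.PDC

universe u

section Mat

variable {K : Type*} [Field K] [CharZero K] {σ : Type*} [Fintype σ]

/-- the symmetric matrix of a quadratic form -/
noncomputable def gm (G : MvPolynomial σ K) : Matrix σ σ K :=
  Matrix.of fun l l' => coeff 0 (pderiv l' (pderiv l G)) / 2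

omit [CharZero K] [Fintype σ] in
theorem gm_symm (G : MvPolynomial σ K) (l l' : σ) : gm G l l' = gm G l' l := by
  simp only [gm, Matrix.of_apply]
  rw [pderiv_comm']

theorem grad_gm (G : MvPolynomial σ K) (hG : G.IsHomogeneous 2) {R : Type*} [CommRing R]
    [Algebra K R] (x : σ → R) (l : σ) : aeval x (pderiv l G) = 2 * mv (gm G) x l := by
  have h1 : (pderiv l G).IsHomogeneous 1 := hG.pderiv
  have h2 : ∀ l', pderiv l' (pderiv l G) = C (coeff 0 (pderiv l' (pderiv l G))) := by
    intro l'
    have h3 : (pderiv l' (pderiv l G)).IsHomogeneous 0 := h1.pderiv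
    exact totalDegree_eq_zero_iff_eq_C.mp (Nat.le_zero.mp h3.totalDegree_le)
  have h4 := h1.sum_X_mul_pderiv
  rw [one_smul] at h4
  rw [← h4, map_sum, mv, Finset.mul_sum]
  refine Finset.sum_congr rfl fun l' _ => ?_
  rw [map_mul, aeval_X, h2 l', aeval_C]
  simp only [gm, Matrix.of_apply]
  have h5 : algebraMap K R (coeff 0 (pderiv l' (pderiv l G))) =
      2 * algebraMap K R (coeff 0 (pderiv l' (pderiv l G)) / 2) := by
    have : (2 : R) = algebraMap K R 2 := by rw [map_ofNat]
    rw [this, ← map_mul]
    congr 1
    field_simp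
  rw [h5]
  ring

theorem bf_gm (G : MvPolynomial σ K) (hG : G.IsHomogeneous 2) {R : Type*} [CommRing R]
    [Algebra K R] (x : σ → R) : bf (gm G) x x = aeval x G := by
  have h1 := hG.sum_X_mul_pderiv
  have h2 := congrArg (aeval x) h1
  rw [map_sum, map_nsmul] at h2
  have h3 : (2 : ℕ) • aeval x G = (2 : ℕ) • bf (gm G) x x := by
    rw [← h2, bf, Finset.smul_sum]
    refine Finset.sum_congr rfl fun l _ => ?_
    rw [map_mul, aeval_X, grad_gm G hG, nsmul_eq_mul]
    push_cast
    ring
  have h4 : ∀ r s : R, (2 : ℕ) • r = (2 : ℕ) • s → r = s := by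
    intro r s hrs
    have h5 : (algebraMap K R (1 / 2)) * (2 : R) = 1 := by
      have : (2 : R) = algebraMap K R 2 := by rw [map_ofNat]
      rw [this, ← map_mul]
      have : (1 / 2 * 2 : K) = 1 := by field_simp
      rw [this, map_one]
    have h6 := congrArg (fun t => algebraMap K R (1 / 2) * t) hrs
    simp only [nsmul_eq_mul, Nat.cast_ofNat] at h6
    rw [← mul_assoc, ← mul_assoc, h5, one_mul, one_mul] at h6
    exact h6
  exact (h4 _ _ h3).symm

theorem dd_gm (G : MvPolynomial σ K) (hG : G.IsHomogeneous 2) {R : Type*} [CommRing R]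
    [Algebra K R] (x v : σ → R) : dd G x v = 2 * ∑ l, mv (gm G) x l * v l := by
  unfold dd
  rw [Finset.mul_sum]
  refine Finset.sum_congr rfl fun l _ => ?_
  rw [grad_gm G hG]
  ring

end Mat

section Ext

variable {F : Type*} [Field F] {σ : Type*} [Fintype σ] {N : ℕ}

/-- independent vectors stay non zero over an extension -/
theorem lin_ext (e : Fin N → σ → F) (he : LinearIndependent F e) {E : Type*} [Field E]
    [Algebra F E] (t : Fin N → E) (h : ∀ l, ∑ j, t j * algebraMap F E (e j l) = 0) : t = 0 := by
  classical
  obtain ⟨f, hf⟩ := LinearMap.exists_leftInverse_of_injective (Fintype.linearCombination F e)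
    (LinearMap.ker_eq_bot.mpr (by
      exact linearIndependent_iff_injective_fintypeLinearCombination.mp he))
  funext j0
  have h1 : ∀ j, f (e j) j0 = if j = j0 then 1 else 0 := by
    intro j
    have h2 := congrFun (LinearMap.congr_fun hf (Pi.single j 1)) j0
    simp only [LinearMap.coe_comp, Function.comp_apply, Fintype.linearCombination_apply_single,
      one_smul, LinearMap.id_coe, id_eq] at h2
    rw [h2, Pi.single_apply]
    by_cases hj : j = j0
    · subst hj; simp
    · simp [hj, Ne.symm hj]
  have h3 : ∀ v : σ → F, f v j0 = ∑ l, v l * f (Pi.single l 1) j0 := by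
    intro v
    conv_lhs => rw [pi_eq_sum_univ' v]
    rw [map_sum, Finset.sum_apply]
    refine Finset.sum_congr rfl fun l _ => ?_
    rw [map_smul, Pi.smul_apply, smul_eq_mul]
  have h4 : ∑ l, (∑ j, t j * algebraMap F E (e j l)) * algebraMap F E (f (Pi.single l 1) j0) = 0 := by
    refine Finset.sum_eq_zero fun l _ => ?_
    rw [h l, zero_mul]
  have h5 : ∑ j, t j * algebraMap F E (f (e j) j0) = 0 := by
    rw [← h4]
    simp only [Finset.sum_mul]
    rw [Finset.sum_comm]
    refine Finset.sum_congr rfl fun j _ => ?_
    rw [h3, map_sum, Finset.mul_sum]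
    refine Finset.sum_congr rfl fun l _ => ?_
    rw [map_mul]
    ring
  rw [Pi.zero_apply, ← h5, Finset.sum_eq_single j0]
  · rw [h1, if_pos rfl, map_one, mul_one]
  · intro j _ hj
    rw [h1, if_neg hj, map_zero, mul_zero]
  · simp

end Ext

/-- a smooth complete intersection of quadrics with a rational point is a good system -/
theorem good_of_smooth {K : Type u} [Field K] [CharZero K] {σ : Type} [Fintype σ] {a : ℕ}
    (G : Fin a → MvPolynomial σ K) (hG : ∀ i, (G i).IsHomogeneous 2)
    (hs : Pool.Agent.Work.PDC.SmoothCI G) (ha : 1 ≤ a) (hn : a ^ 2 + 3 ≤ Fintype.card σ)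
    (y : σ → K) (hy0 : y ≠ 0) (hy : ∀ i, aeval y (G i) = 0) :
    ∃ A : Fin a → Matrix σ σ K, (∀ (R : Type u) [CommRing R] [Algebra K R] (x : σ → R) (i : Fin a),
      bf (A i) x x = aeval x (G i)) ∧ Good (fun m : Fin 0 => m.elim0) A y (a - 1) ∧
      ∀ (F : Type u) [Field F] [Algebra K F] (x : σ → F), x ≠ 0 → (∀ i, aeval x (G i) = 0) →
        Smooth (fun m : Fin 0 => (m.elim0 : σ → K)) A x := by
  classical
  have hbf : ∀ (R : Type u) [CommRing R] [Algebra K R] (x : σ → R) (i : Fin a),
      bf (gm (G i)) x x = aeval x (G i) := fun R _ _ x i => bf_gm (G i) (hG i) x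
  have hsmooth : ∀ (F : Type u) [Field F] [Algebra K F] (x : σ → F), x ≠ 0 →
      (∀ i, aeval x (G i) = 0) →
        Smooth (fun m : Fin 0 => (m.elim0 : σ → K)) (fun i => gm (G i)) x := by
    intro F _ _ x hx0 hx
    unfold Smooth
    rw [Fintype.linearIndependent_iff]
    intro g hg
    rw [Fintype.sum_sum_type, Finset.univ_eq_empty, Finset.sum_empty, zero_add] at hg
    have h1 := smooth_ext G hs x hx0 hx (fun i => g (Sum.inr i)) (by
      intro v
      have h2 : ∀ l, ∑ i, g (Sum.inr i) * mv (gm (G i)) x l = 0 := by
        intro l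
        have h3 := congrFun hg l
        simp only [Sum.elim_inr, Finset.sum_apply, Pi.smul_apply, smul_eq_mul, Pi.zero_apply] at h3
        exact h3
      have h4 : ∑ i, g (Sum.inr i) * dd (G i) x v =
          2 * ∑ l, (∑ i, g (Sum.inr i) * mv (gm (G i)) x l) * v l := by
        simp only [Finset.sum_mul, Finset.mul_sum]
        rw [Finset.sum_comm]
        refine Finset.sum_congr rfl fun i _ => ?_
        rw [dd_gm _ (hG i), Finset.mul_sum, Finset.mul_sum]
        exact Finset.sum_congr rfl fun l _ => by ring
      rw [h4]
      simp only [h2, zero_mul, Finset.sum_const_zero, mul_zero])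
    rintro (m | i)
    · exact m.elim0
    · exact congrFun h1 i
  refine ⟨fun i => gm (G i), hbf, ?_, hsmooth⟩
  refine ⟨fun i l l' => gm_symm (G i) l l', ⟨fun m => m.elim0, fun i => ?_⟩,
    hsmooth K y hy0 hy, ?_, ?_⟩
  · rw [hbf]; exact hy i
  · intro F _ _ w hw
    by_contra hcon
    push Not at hcon
    set V := Ker (fun m : Fin 0 => (m.elim0 : σ → K)) (fun i => gm (G i)) w with hV
    let B := Module.finBasis F V
    let e : Fin (Module.finrank F V) → σ → F := fun j => (B j : σ → F)
    have he : LinearIndependent F e := by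
      have := B.linearIndependent
      exact this.map' V.subtype (Submodule.ker_subtype V)
    obtain ⟨i0, hi0⟩ := Function.ne_iff.mp hw
    obtain ⟨E, _, _, _, _, _⟩ : ∃ (E : Type u) (_ : Field E) (_ : Algebra K E) (_ : Algebra F E)
        (_ : IsScalarTower K F E), IsAlgClosed E :=
      ⟨AlgebraicClosure F, inferInstance, inferInstance, inferInstance, inferInstance,
        inferInstance⟩
    -- the universal vector
    let U : σ → MvPolynomial (Fin (Module.finrank F V)) E :=
      fun l => ∑ j, X j * C (algebraMap F E (e j l))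
    have hU : ∀ (t : Fin (Module.finrank F V) → E) (H : MvPolynomial σ K),
        eval t (aeval U H) = aeval (fun l => ∑ j, t j * algebraMap F E (e j l)) H := by
      intro t H
      have h1 : eval t (aeval U H) = eval₂ ((eval t).comp (algebraMap K _)) (fun l => eval t (U l)) H := by
        rw [aeval_def, eval₂_comp_left]
        rfl
      rw [h1, aeval_def]
      congr 1
      · refine RingHom.ext fun c => ?_
        rw [RingHom.comp_apply, IsScalarTower.algebraMap_apply K E (MvPolynomial _ E), algebraMap_eq,
          eval_C]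
      · funext l
        simp only [U, map_sum, map_mul, eval_X, eval_C]
    have hcard : Fintype.card {i : Fin a // i ≠ i0} < Module.finrank F V := by
      rw [Fintype.card_subtype_compl, Fintype.card_fin, Fintype.card_unique]
      exact hcon
    obtain ⟨t, ht0, ht⟩ := exists_zero_fin (E := E) hcard (fun i => aeval U (G i.1)) (by
      intro i
      rw [hU]
      have h1 : (fun l => ∑ j, (0 : Fin (Module.finrank F V) → E) j * algebraMap F E (e j l)) =
          (0 : σ → E) := by
        funext l
        simp
      rw [h1, ← bf_gm (G i.1) (hG i.1)]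
      simp [bf])
    let x : σ → E := fun l => ∑ j, t j * algebraMap F E (e j l)
    have hx0 : x ≠ 0 := by
      intro h
      apply ht0
      exact lin_ext e he t (fun l => congrFun h l)
    have hmvx : ∀ i l, mv (gm (G i)) x l = ∑ j, t j * algebraMap F E (mv (gm (G i)) (e j) l) := by
      intro i l
      simp only [mv, x, map_sum, map_mul, Finset.mul_sum]
      rw [Finset.sum_comm]
      refine Finset.sum_congr rfl fun j _ => Finset.sum_congr rfl fun l' _ => ?_
      rw [← IsScalarTower.algebraMap_apply K F E]
      ring
    have hker : ∀ l, ∑ i, algebraMap F E (w i) * mv (gm (G i)) x l = 0 := by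
      intro l
      have h1 : ∀ j, ∑ i, w i * mv (gm (G i)) (e j) l = 0 := by
        intro j
        have h2 := (B j).2.2
        have h3 : Set.range (fun m : Fin 0 => cv F (m.elim0 : σ → K)) = ∅ :=
          Set.range_eq_empty _
        rw [h3, Submodule.span_empty, Submodule.mem_bot] at h2
        have h4 := congrFun h2 l
        simp only [Finset.sum_apply, Pi.smul_apply, smul_eq_mul, Pi.zero_apply] at h4
        exact h4
      simp only [hmvx, Finset.mul_sum]
      rw [Finset.sum_comm]
      refine Finset.sum_eq_zero fun j _ => ?_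
      have h5 : ∑ i, algebraMap F E (w i) * (t j * algebraMap F E (mv (gm (G i)) (e j) l)) =
          t j * algebraMap F E (∑ i, w i * mv (gm (G i)) (e j) l) := by
        rw [map_sum, Finset.mul_sum]
        refine Finset.sum_congr rfl fun i _ => ?_
        rw [map_mul]
        ring
      rw [h5, h1, map_zero, mul_zero]
    have hx1 : ∀ i, i ≠ i0 → aeval x (G i) = 0 := by
      intro i hi
      have := ht ⟨i, hi⟩
      rw [hU] at this
      exact this
    have hx2 : ∀ i, aeval x (G i) = 0 := by
      intro i
      by_cases hi : i = i0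
      · subst hi
        have h1 : ∑ l, x l * ∑ i', algebraMap F E (w i') * mv (gm (G i')) x l = 0 :=
          Finset.sum_eq_zero fun l _ => by rw [hker, mul_zero]
        have h2 : ∑ l, x l * ∑ i', algebraMap F E (w i') * mv (gm (G i')) x l =
            ∑ i', algebraMap F E (w i') * aeval x (G i') := by
          simp only [Finset.mul_sum]
          rw [Finset.sum_comm]
          refine Finset.sum_congr rfl fun i' _ => ?_
          rw [← bf_gm (G i') (hG i'), bf, Finset.mul_sum]
          exact Finset.sum_congr rfl fun l _ => by ring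
        rw [h2, Finset.sum_eq_single i (fun i' _ h => by rw [hx1 i' h, mul_zero]) (by simp)] at h1
        refine (mul_eq_zero.mp h1).resolve_left ?_
        intro h
        exact hi0 ((map_eq_zero _).mp h)
      · exact hx1 i hi
    have h6 := smooth_ext G hs x hx0 hx2 (fun i => algebraMap F E (w i)) (by
      intro v
      have h4 : ∑ i, algebraMap F E (w i) * dd (G i) x v =
          2 * ∑ l, (∑ i, algebraMap F E (w i) * mv (gm (G i)) x l) * v l := by
        simp only [Finset.sum_mul, Finset.mul_sum]
        rw [Finset.sum_comm]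
        refine Finset.sum_congr rfl fun i _ => ?_
        rw [dd_gm _ (hG i), Finset.mul_sum, Finset.mul_sum]
        exact Finset.sum_congr rfl fun l _ => by ring
      rw [h4]
      simp only [hker, zero_mul, Finset.sum_const_zero, mul_zero])
    apply hi0
    have h7 := congrFun h6 i0
    exact (map_eq_zero _).mp h7
  · simp only [Fintype.card_fin]
    omega

end Pool.Agent.Work.PQP
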