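import Mathlib
import Pool.Agent.Work.MP_b62148_ag.QP.DefsP
import Pool.Agent.Work.MP_b62148_ag.CI.Setup

/-!
Systems of linear and quadratic forms: basic lemmas.
-/

namespace Pool.Agent.Work.PQP

open MvPolynomial

section Basic

variable {K : Type*} [Field K] {σ : Type*} [Fintype σ] {R : Type*} [CommRing R] [Algebra K R]

theorem ln_map {S : Type*} [CommRing S] [Algebra K S] (φ : R →ₐ[K] S) (L : σ → K) (x : σ → R) :
    φ (ln L x) = ln L (fun l => φ (x l)) := by
  simp only [ln, map_sum, map_mul, AlgHom.commutes]

theorem mv_map {S : Type*} [CommRing S] [Algebra K S] (φ : R →ₐ[K] S) (A : Matrix σ σ K)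
    (x : σ → R) (l : σ) : φ (mv A x l) = mv A (fun l => φ (x l)) l := by
  simp only [mv, map_sum, map_mul, AlgHom.commutes]

theorem bf_map {S : Type*} [CommRing S] [Algebra K S] (φ : R →ₐ[K] S) (A : Matrix σ σ K)
    (x y : σ → R) : φ (bf A x y) = bf A (fun l => φ (x l)) (fun l => φ (y l)) := by
  simp only [bf, map_sum, map_mul, mv_map]

theorem ln_add (L : σ → K) (x y : σ → R) : ln L (x + y) = ln L x + ln L y := by
  simp only [ln, Pi.add_apply, mul_add, Finset.sum_add_distrib]

theorem ln_smul (L : σ → K) (c : R) (x : σ → R) : ln L (c • x) = c * ln L x := by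
  simp only [ln, Pi.smul_apply, smul_eq_mul, Finset.mul_sum]
  exact Finset.sum_congr rfl fun l _ => by ring

theorem ln_sub (L : σ → K) (x y : σ → R) : ln L (x - y) = ln L x - ln L y := by
  simp only [ln, Pi.sub_apply, mul_sub, Finset.sum_sub_distrib]

theorem mv_add (A : Matrix σ σ K) (x y : σ → R) : mv A (x + y) = mv A x + mv A y := by
  funext l; simp only [mv, Pi.add_apply, mul_add, Finset.sum_add_distrib]

theorem mv_sub (A : Matrix σ σ K) (x y : σ → R) : mv A (x - y) = mv A x - mv A y := by
  funext l; simp only [mv, Pi.sub_apply, mul_sub, Finset.sum_sub_distrib]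

theorem mv_smul (A : Matrix σ σ K) (c : R) (x : σ → R) : mv A (c • x) = c • mv A x := by
  funext l
  simp only [mv, Pi.smul_apply, smul_eq_mul, Finset.mul_sum]
  exact Finset.sum_congr rfl fun l _ => by ring

theorem bf_add_left (A : Matrix σ σ K) (x x' y : σ → R) :
    bf A (x + x') y = bf A x y + bf A x' y := by
  simp only [bf, Pi.add_apply, add_mul, Finset.sum_add_distrib]

theorem bf_add_right (A : Matrix σ σ K) (x y y' : σ → R) :
    bf A x (y + y') = bf A x y + bf A x y' := by
  simp only [bf, mv_add, Pi.add_apply, mul_add, Finset.sum_add_distrib]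

theorem bf_sub_left (A : Matrix σ σ K) (x x' y : σ → R) :
    bf A (x - x') y = bf A x y - bf A x' y := by
  simp only [bf, Pi.sub_apply, sub_mul, Finset.sum_sub_distrib]

theorem bf_sub_right (A : Matrix σ σ K) (x y y' : σ → R) :
    bf A x (y - y') = bf A x y - bf A x y' := by
  simp only [bf, mv_sub, Pi.sub_apply, mul_sub, Finset.sum_sub_distrib]

theorem bf_smul_left (A : Matrix σ σ K) (c : R) (x y : σ → R) :
    bf A (c • x) y = c * bf A x y := by
  simp only [bf, Pi.smul_apply, smul_eq_mul, Finset.mul_sum]
  exact Finset.sum_congr rfl fun l _ => by ring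

theorem bf_smul_right (A : Matrix σ σ K) (c : R) (x y : σ → R) :
    bf A x (c • y) = c * bf A x y := by
  simp only [bf, mv_smul, Pi.smul_apply, smul_eq_mul, Finset.mul_sum]
  exact Finset.sum_congr rfl fun l _ => by ring

theorem bf_comm {A : Matrix σ σ K} (hA : ∀ l l', A l l' = A l' l) (x y : σ → R) :
    bf A x y = bf A y x := by
  simp only [bf, mv, Finset.mul_sum]
  rw [Finset.sum_comm]
  refine Finset.sum_congr rfl fun l _ => Finset.sum_congr rfl fun l' _ => ?_
  rw [hA l' l]
  ring

theorem aeval_lp (L : σ → K) (x : σ → R) : aeval x (lp L) = ln L x := by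
  simp only [lp, ln, map_sum, map_mul, aeval_C, aeval_X]

theorem aeval_qp (A : Matrix σ σ K) (x : σ → R) : aeval x (qp A) = bf A x x := by
  simp only [qp, bf, mv, map_sum, map_mul, aeval_C, aeval_X]

theorem dd_lp (L : σ → K) (x v : σ → R) : PDC.dd (lp L) x v = ln L v := by
  classical
  have h : ∀ (s : Finset σ), PDC.dd (∑ l ∈ s, C (L l) * X l) x v =
      ∑ l ∈ s, algebraMap K R (L l) * v l := by
    intro s
    induction s using Finset.induction_on with
    | empty => simp [PDC.dd_zero]
    | insert a s ha ih =>
      rw [Finset.sum_insert ha, Finset.sum_insert ha, PDC.dd_add, ih, PDC.dd_mul, PDC.dd_C,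
        PDC.dd_X, aeval_C]
      ring
  exact h Finset.univ

theorem dd_qp (A : Matrix σ σ K) (x v : σ → R) :
    PDC.dd (qp A) x v = bf A x v + bf A v x := by
  classical
  have h : ∀ (s : Finset σ), PDC.dd (∑ l ∈ s, X l * lp (A l)) x v =
      ∑ l ∈ s, (x l * ln (A l) v + v l * ln (A l) x) := by
    intro s
    induction s using Finset.induction_on with
    | empty => simp [PDC.dd_zero]
    | insert a s ha ih =>
      rw [Finset.sum_insert ha, Finset.sum_insert ha, PDC.dd_add, ih, PDC.dd_mul, dd_lp,
        PDC.dd_X, aeval_X, aeval_lp]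
      ring
  have h1 := h Finset.univ
  rw [Finset.sum_add_distrib] at h1
  exact h1

end Basic

section Der

variable {K : Type*} [Field K] {σ : Type*} [Fintype σ] {R : Type*} [CommRing R] [Algebra K R]

theorem der_ln (D : Derivation K R R) (L : σ → K) (x : σ → R) :
    D (ln L x) = ln L (fun l => D (x l)) := by
  simp only [ln, map_sum]
  refine Finset.sum_congr rfl fun l _ => ?_
  rw [Derivation.leibniz, Derivation.map_algebraMap, smul_zero, add_zero, smul_eq_mul]

theorem der_mv (D : Derivation K R R) (A : Matrix σ σ K) (x : σ → R) (l : σ) :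
    D (mv A x l) = mv A (fun l => D (x l)) l := der_ln D (A l) x

theorem der_bf (D : Derivation K R R) (A : Matrix σ σ K) (x y : σ → R) :
    D (bf A x y) = bf A (fun l => D (x l)) y + bf A x (fun l => D (y l)) := by
  simp only [bf, map_sum, ← Finset.sum_add_distrib]
  refine Finset.sum_congr rfl fun l _ => ?_
  rw [Derivation.leibniz, der_mv, smul_eq_mul, smul_eq_mul]
  ring

end Der

section Dual

variable {F : Type*} [Field F] {σ : Type*} [Fintype σ] {ι : Type*} [Fintype ι] [DecidableEq ι]

/-- dual vectors of independent vectors -/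
theorem exists_dual_vec (M : ι → σ → F) (h : LinearIndependent F M) :
    ∃ d : ι → σ → F, ∀ i j, ∑ l, M i l * d j l = if i = j then 1 else 0 := by
  classical
  let f : ι → (σ → F) →ₗ[F] F := fun i =>
    { toFun := fun v => ∑ l, M i l * v l
      map_add' := by
        intro v w
        simp only [Pi.add_apply, mul_add, Finset.sum_add_distrib]
      map_smul' := by
        intro c v
        simp only [Pi.smul_apply, smul_eq_mul, Finset.mul_sum, RingHom.id_apply]
        exact Finset.sum_congr rfl fun l _ => by ring }
  obtain ⟨u, hu⟩ := PDC.exists_dual f (by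
    intro a ha
    funext i
    refine (Fintype.linearIndependent_iff.mp h) a ?_ i
    funext l
    have h1 := ha (Pi.single l 1)
    rw [Finset.sum_apply]
    simp only [Pi.smul_apply, smul_eq_mul, Pi.zero_apply]
    rw [← h1]
    refine Finset.sum_congr rfl fun i _ => ?_
    congr 1
    show M i l = ∑ l', M i l' * (Pi.single l 1 : σ → F) l'
    rw [Finset.sum_eq_single l]
    · simp
    · intro l' _ hl'
      rw [Pi.single_eq_of_ne hl', mul_zero]
    · simp)
  exact ⟨u, hu⟩

/-- the space of vectors orthogonal to the given ones -/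
def perp (M : ι → σ → F) : Submodule F (σ → F) where
  carrier := {v | ∀ i, ∑ l, M i l * v l = 0}
  add_mem' := by
    intro v w hv hw i
    simp only [Pi.add_apply, mul_add, Finset.sum_add_distrib]
    rw [hv i, hw i, add_zero]
  zero_mem' := by
    intro i
    simp
  smul_mem' := by
    intro c v hv i
    have : ∑ l, M i l * (c • v) l = c * ∑ l, M i l * v l := by
      simp only [Pi.smul_apply, smul_eq_mul, Finset.mul_sum]
      exact Finset.sum_congr rfl fun l _ => by ring
    rw [this, hv i, mul_zero]

omit [DecidableEq ι] in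
theorem finrank_perp (M : ι → σ → F) :
    Fintype.card σ ≤ Module.finrank F (perp M) + Fintype.card ι := by
  classical
  let Φ : (σ → F) →ₗ[F] (ι → F) :=
    { toFun := fun v i => ∑ l, M i l * v l
      map_add' := by
        intro v w
        funext i
        simp only [Pi.add_apply, mul_add, Finset.sum_add_distrib]
      map_smul' := by
        intro c v
        funext i
        simp only [Pi.smul_apply, smul_eq_mul, Finset.mul_sum, RingHom.id_apply]
        exact Finset.sum_congr rfl fun l _ => by ring }
  have hker : LinearMap.ker Φ = perp M := by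
    ext v
    rw [LinearMap.mem_ker]
    exact ⟨fun h i => congrFun h i, fun h => funext h⟩
  have h1 := LinearMap.finrank_range_add_finrank_ker Φ
  rw [hker, Module.finrank_fintype_fun_eq_card] at h1
  have h2 : Module.finrank F (LinearMap.range Φ) ≤ Fintype.card ι := by
    refine (Submodule.finrank_le _).trans ?_
    rw [Module.finrank_fintype_fun_eq_card]
  omega

end Dual

end Pool.Agent.Work.PQP
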