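import Mathlib
import Pool.Agent.Work.MP_b62148_ag.QP.InitP
import Pool.Agent.Work.MP_b62148_ag.QP.BasicP

/-!
Systems of quadratic forms of large rank with a smooth rational point are good systems.
-/

namespace Pool.Agent.Work.PQP

open MvPolynomial Pool.Agent.Work.PDC

universe u

/-- the dimension of kernels over extension fields is bounded by the bound over the algebraic
closure -/
theorem ker_ext {K : Type u} [Field K] {σ : Type} [Fintype σ] {a : ℕ}
    (A : Fin a → Matrix σ σ K) (κ : ℕ)
    (h : ∀ w : Fin a → AlgebraicClosure K, w ≠ 0 →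
      Module.finrank (AlgebraicClosure K) (Ker (fun m : Fin 0 => (m.elim0 : σ → K)) A w) ≤ κ)
    (F : Type u) [Field F] [Algebra K F] (w : Fin a → F) (hw : w ≠ 0) :
    Module.finrank F (Ker (fun m : Fin 0 => (m.elim0 : σ → K)) A w) ≤ κ := by
  classical
  by_contra hcon
  push Not at hcon
  set V := Ker (fun m : Fin 0 => (m.elim0 : σ → K)) A w with hV
  let B := Module.finBasis F V
  have hle : κ + 1 ≤ Module.finrank F V := hcon
  let e : Fin (κ + 1) → σ → F := fun j => (B (Fin.castLE hle j) : σ → F)
  have he : LinearIndependent F e := by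
    have h1 := B.linearIndependent.map' V.subtype (Submodule.ker_subtype V)
    exact h1.comp _ (Fin.castLE_injective hle)
  obtain ⟨d, hd⟩ := exists_dual_vec e he
  obtain ⟨i0, hi0⟩ := Function.ne_iff.mp hw
  have hker : ∀ j l, ∑ i, w i * mv (A i) (e j) l = 0 := by
    intro j l
    have h2 := (B (Fin.castLE hle j)).2.2
    have h3 : Set.range (fun m : Fin 0 => cv F (m.elim0 : σ → K)) = ∅ := Set.range_eq_empty _
    rw [h3, Submodule.span_empty, Submodule.mem_bot] at h2
    have h4 := congrFun h2 l
    simp only [Finset.sum_apply, Pi.smul_apply, smul_eq_mul, Pi.zero_apply] at h4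
    exact h4
  let s : Set F := Set.range (Sum.elim w (Sum.elim (fun p : Fin (κ + 1) × σ => e p.1 p.2)
    (fun p : Fin (κ + 1) × σ => d p.1 p.2)))
  have hsw : ∀ i, w i ∈ s := fun i => ⟨Sum.inl i, rfl⟩
  have hse : ∀ j l, e j l ∈ s := fun j l => ⟨Sum.inr (Sum.inl (j, l)), rfl⟩
  have hsd : ∀ j l, d j l ∈ s := fun j l => ⟨Sum.inr (Sum.inr (j, l)), rfl⟩
  obtain ⟨S, g, hsS, hwS, hg⟩ := PD5.exists_special (k := K) s (Set.finite_range _) (w i0) hi0
    (Algebra.subset_adjoin (hsw i0))
  let wS : Fin a → S := fun i => ⟨w i, hsS (hsw i)⟩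
  let eS : Fin (κ + 1) → σ → S := fun j l => ⟨e j l, hsS (hse j l)⟩
  let dS : Fin (κ + 1) → σ → S := fun j l => ⟨d j l, hsS (hsd j l)⟩
  have hkerS : ∀ j l, ∑ i, wS i * mv (A i) (eS j) l = 0 := by
    intro j l
    apply Subtype.ext
    rw [ZeroMemClass.coe_zero, ← hker j l]
    push_cast
    refine Finset.sum_congr rfl fun i _ => ?_
    congr 1
    exact mv_map S.val (A i) (eS j) l
  have hdS : ∀ i j, ∑ l, eS i l * dS j l = if i = j then 1 else 0 := by
    intro i j
    apply Subtype.ext
    push_cast
    have h5 := hd i j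
    rw [h5]
    split_ifs <;> rfl
  have hw' : (fun i => g (wS i)) ≠ 0 := by
    intro h0
    exact hg (congrFun h0 i0)
  have hfin := h (fun i => g (wS i)) hw'
  let e' : Fin (κ + 1) → σ → AlgebraicClosure K := fun j l => g (eS j l)
  have hli : LinearIndependent (AlgebraicClosure K) e' := by
    rw [Fintype.linearIndependent_iff]
    intro c hc j0
    have h6 : ∑ l, (∑ j, c j * e' j l) * g (dS j0 l) = 0 := by
      refine Finset.sum_eq_zero fun l _ => ?_
      have h7 := congrFun hc l
      simp only [Finset.sum_apply, Pi.smul_apply, smul_eq_mul, Pi.zero_apply] at h7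
      rw [h7, zero_mul]
    have h8 : ∑ l, (∑ j, c j * e' j l) * g (dS j0 l) =
        ∑ j, c j * g (∑ l, eS j l * dS j0 l) := by
      simp only [Finset.sum_mul]
      rw [Finset.sum_comm]
      refine Finset.sum_congr rfl fun j _ => ?_
      rw [map_sum, Finset.mul_sum]
      refine Finset.sum_congr rfl fun l _ => ?_
      rw [map_mul, mul_assoc]
    rw [h8] at h6
    simp only [hdS] at h6
    rw [Finset.sum_eq_single j0 (fun j _ hj => by rw [if_neg hj, map_zero, mul_zero]) (by simp),
      if_pos rfl, map_one, mul_one] at h6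
    exact h6
  have hmem : ∀ j, e' j ∈ Ker (fun m : Fin 0 => (m.elim0 : σ → K)) A (fun i => g (wS i)) := by
    intro j
    refine ⟨fun m => m.elim0, ?_⟩
    have h9 : ∑ i, (fun i => g (wS i)) i • mv (A i) (e' j) = 0 := by
      funext l
      simp only [Finset.sum_apply, Pi.smul_apply, smul_eq_mul, Pi.zero_apply]
      have h10 := congrArg g (hkerS j l)
      rw [map_sum, map_zero] at h10
      rw [← h10]
      refine Finset.sum_congr rfl fun i _ => ?_
      rw [map_mul]
      congr 1
      exact (mv_map g (A i) (eS j) l).symm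
    rw [h9]
    exact Submodule.zero_mem _
  have hli' : LinearIndependent (AlgebraicClosure K)
      (fun j => (⟨e' j, hmem j⟩ : Ker (fun m : Fin 0 => (m.elim0 : σ → K)) A
        (fun i => g (wS i)))) := by
    apply LinearIndependent.of_comp (Ker (fun m : Fin 0 => (m.elim0 : σ → K)) A
        (fun i => g (wS i))).subtype
    exact hli
  have h11 := hli'.fintype_card_le_finrank
  rw [Fintype.card_fin] at h11
  omega

/-- the kernel of a combination and the rank of its matrix of second derivatives -/
theorem ker_rank {K : Type u} [Field K] [CharZero K] {σ : Type} [Fintype σ] {a : ℕ}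
    (G : Fin a → MvPolynomial σ K) {F : Type u} [Field F] [Algebra K F] (w : Fin a → F) :
    Module.finrank F (Ker (fun m : Fin 0 => (m.elim0 : σ → K)) (fun i => gm (G i)) w) +
      (Matrix.of fun l l' : σ => ∑ i, w i * aeval (0 : σ → F) (pderiv l (pderiv l' (G i)))).rank ≤
        Fintype.card σ := by
  classical
  set M : Matrix σ σ F := Matrix.of fun l l' : σ =>
    ∑ i, w i * aeval (0 : σ → F) (pderiv l (pderiv l' (G i))) with hM
  have hval : ∀ i l l', aeval (0 : σ → F) (pderiv l (pderiv l' (G i))) =
      2 * algebraMap K F (gm (G i) l l') := by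
    intro i l l'
    rw [aeval_zero, constantCoeff_eq, pderiv_comm' l l']
    have h2 : (2 : F) = algebraMap K F 2 := by rw [map_ofNat]
    rw [h2, ← map_mul]
    congr 1
    simp only [gm, Matrix.of_apply]
    field_simp
  have hle : Ker (fun m : Fin 0 => (m.elim0 : σ → K)) (fun i => gm (G i)) w ≤
      LinearMap.ker M.mulVecLin := by
    intro v hv
    have h2 := hv.2
    have h3 : Set.range (fun m : Fin 0 => cv F (m.elim0 : σ → K)) = ∅ := Set.range_eq_empty _
    rw [h3, Submodule.span_empty, Submodule.mem_bot] at h2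
    rw [LinearMap.mem_ker]
    funext l
    have h4 := congrFun h2 l
    simp only [Finset.sum_apply, Pi.smul_apply, smul_eq_mul, Pi.zero_apply] at h4
    have h5 : M.mulVecLin v l = 2 * ∑ i, w i * mv (gm (G i)) v l := by
      rw [Matrix.mulVecLin_apply, Matrix.mulVec, dotProduct]
      simp only [hM, Matrix.of_apply, hval, mv, Finset.sum_mul, Finset.mul_sum]
      rw [Finset.sum_comm]
      refine Finset.sum_congr rfl fun i _ => Finset.sum_congr rfl fun l' _ => ?_
      ring
    rw [h5, h4, mul_zero]
    rfl
  have h6 := Submodule.finrank_mono hle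
  have h7 := LinearMap.finrank_range_add_finrank_ker M.mulVecLin
  rw [Module.finrank_fintype_fun_eq_card] at h7
  have h8 : M.rank = Module.finrank F (LinearMap.range M.mulVecLin) := rfl
  omega

/-- quadratic forms all of whose non zero combinations have large rank, with a smooth rational
point, are a good system -/
theorem good_of_rank {K : Type u} [Field K] [CharZero K] {σ : Type} [Fintype σ] {a : ℕ}
    (G : Fin a → MvPolynomial σ K) (hG : ∀ i, (G i).IsHomogeneous 2) (ha : 1 ≤ a)
    (hr : ∀ w : Fin a → AlgebraicClosure K, w ≠ 0 → a ^ 2 + 4 ≤ a + (Matrix.of fun l l' : σ =>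
      ∑ i, w i * aeval (0 : σ → AlgebraicClosure K) (pderiv l (pderiv l' (G i)))).rank)
    (y : σ → K) (hy : ∀ i, aeval y (G i) = 0)
    (hsm : ∀ c : Fin a → K, (∀ l, ∑ i, c i * aeval y (pderiv l (G i)) = 0) → c = 0) :
    Good (fun m : Fin 0 => m.elim0) (fun i => gm (G i)) y
      (Fintype.card σ + a - (a ^ 2 + 4)) := by
  classical
  have hle : a ^ 2 + 4 ≤ Fintype.card σ + a := by
    have h1 := hr (fun _ => 1) (by
      intro h0
      have := congrFun h0 ⟨0, ha⟩
      exact one_ne_zero this)
    refine h1.trans ?_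
    rw [add_comm (Fintype.card σ)]
    exact Nat.add_le_add_left (Matrix.rank_le_card_width _) a
  refine ⟨fun i l l' => gm_symm (G i) l l', ⟨fun m => m.elim0, fun i => ?_⟩, ?_, ?_, ?_⟩
  · rw [bf_gm _ (hG i)]; exact hy i
  · unfold Smooth
    rw [Fintype.linearIndependent_iff]
    intro g hg
    rw [Fintype.sum_sum_type, Finset.univ_eq_empty, Finset.sum_empty, zero_add] at hg
    have h1 := hsm (fun i => g (Sum.inr i)) (by
      intro l
      have h3 := congrFun hg l
      simp only [Sum.elim_inr, Finset.sum_apply, Pi.smul_apply, smul_eq_mul, Pi.zero_apply] at h3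
      have h4 : ∑ i, g (Sum.inr i) * aeval y (pderiv l (G i)) =
          2 * ∑ i, g (Sum.inr i) * mv (gm (G i)) y l := by
        rw [Finset.mul_sum]
        refine Finset.sum_congr rfl fun i _ => ?_
        rw [grad_gm _ (hG i)]
        ring
      rw [h4, h3, mul_zero])
    rintro (m | i)
    · exact m.elim0
    · exact congrFun h1 i
  · intro F _ _ w hw
    refine ker_ext _ _ ?_ F w hw
    intro w' hw'
    have h1 := ker_rank G w'
    have h2 := hr w' hw'
    omega
  · simp only [Fintype.card_fin]
    omega

end Pool.Agent.Work.PQP
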