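import Mathlib
import Pool.Agent.Work.MP_b62148_ag.QP.BasicP

/-!
Systems of linear and quadratic forms with a rational point: no quadratic forms; clearing
denominators; the value at the origin.
-/

namespace Pool.Agent.Work.PQP

open MvPolynomial

universe u

section Base

variable {K : Type u} [Field K] {σ : Type} [Fintype σ] {μ : Type} [Fintype μ] {b : ℕ}
  {L : μ → σ → K} {y : σ → K} {κ : ℕ}

omit [Fintype σ] in
theorem aeval_aeval {R : Type*} [CommRing R] [Algebra K R] {τ : Type*} (s : τ → R)
    (P : σ → MvPolynomial τ K) (H : MvPolynomial σ K) :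
    aeval s (aeval P H) = aeval (fun l => aeval s (P l)) H := by
  have h : (aeval s : MvPolynomial τ K →ₐ[K] R).comp (aeval P) =
      aeval (fun l => aeval s (P l)) := by
    apply MvPolynomial.algHom_ext
    intro i
    simp
  exact congrArg (fun f => f H) h

/-- [P7] no quadrics -/
theorem base {A : Fin 0 → Matrix σ σ K} (hg : Good L A y κ) : Para L A := by
  classical
  have hind : LinearIndependent K L := by
    have h1 := hg.indep
    unfold Smooth at h1
    have h2 := h1.comp Sum.inl Sum.inl_injective
    have h3 : (Sum.elim (fun m => cv K (L m)) (fun i => mv (A i) y) ∘ Sum.inl) = L := by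
      funext m
      rfl
    rw [h3] at h2
    exact h2
  obtain ⟨d, hd⟩ := exists_dual_vec L hind
  let e : σ ≃ Fin (Fintype.card σ) := Fintype.equivFin σ
  let P : σ → MvPolynomial (Fin (Fintype.card σ)) K := fun l =>
    X (e l) - ∑ m, (ln (L m) (fun l' => (X (e l') : MvPolynomial (Fin (Fintype.card σ)) K))) *
      C (d m l)
  refine ⟨Fintype.card σ, P, ⟨fun m => ?_, fun i => i.elim0⟩, ?_⟩
  · have h1 : P = (fun l => X (e l)) - ∑ m,
        (ln (L m) (fun l' => (X (e l') : MvPolynomial (Fin (Fintype.card σ)) K))) •
          (cv (MvPolynomial (Fin (Fintype.card σ)) K) (d m)) := by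
      funext l
      simp only [P, Pi.sub_apply, Finset.sum_apply, Pi.smul_apply, smul_eq_mul]
      rfl
    have h2 : ∀ (s : Finset μ) (c : μ → MvPolynomial (Fin (Fintype.card σ)) K),
        ln (L m) (∑ m' ∈ s, c m' • (cv (MvPolynomial (Fin (Fintype.card σ)) K) (d m'))) =
          ∑ m' ∈ s, c m' * ln (L m) (cv (MvPolynomial (Fin (Fintype.card σ)) K) (d m')) := by
      intro s c
      induction s using Finset.induction_on with
      | empty => simp [ln]
      | insert a s ha ih =>
        rw [Finset.sum_insert ha, Finset.sum_insert ha, ln_add, ln_smul, ih]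
    have h3 : ∀ m', ln (L m) (cv (MvPolynomial (Fin (Fintype.card σ)) K) (d m')) =
        if m = m' then 1 else 0 := by
      intro m'
      have h4 := congrArg (algebraMap K (MvPolynomial (Fin (Fintype.card σ)) K)) (hd m m')
      rw [map_sum] at h4
      simp only [map_mul] at h4
      unfold ln cv
      rw [h4]
      split_ifs <;> simp
    rw [h1, ln_sub, h2]
    simp only [h3, mul_ite, mul_one, mul_zero]
    rw [Finset.sum_ite_eq]
    simp
  · intro H hH F _ _ _ x hx _
    have h1 := congrArg (aeval (fun j => x (e.symm j)) :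
      MvPolynomial (Fin (Fintype.card σ)) K →ₐ[K] F) hH
    rw [map_zero, aeval_aeval] at h1
    rw [← h1]
    congr 2
    funext l
    simp only [P, map_sub, map_sum, map_mul, aeval_X, Equiv.symm_apply_apply]
    rw [Finset.sum_eq_zero, sub_zero]
    intro m _
    have h2 : (aeval (fun j => x (e.symm j)) : MvPolynomial (Fin (Fintype.card σ)) K →ₐ[K] F)
        (ln (L m) (fun l' => (X (e l') : MvPolynomial (Fin (Fintype.card σ)) K))) = 0 := by
      rw [ln_map]
      simp only [aeval_X, Equiv.symm_apply_apply]
      exact hx.1 m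
    rw [h2, zero_mul]

end Base

section Clear

variable {K : Type u} [Field K] {σ : Type} [Fintype σ]

/-- [P6a] clearing denominators -/
theorem exists_clear {m : ℕ} (Y : σ → MvPolynomial (Fin m) (FractionRing (MvPolynomial σ K))) :
    ∃ (δ : FractionRing (MvPolynomial σ K)) (_ : δ ≠ 0) (n : ℕ) (P : σ → MvPolynomial (Fin n) K),
      ∀ H : MvPolynomial σ K, aeval P H = 0 ↔ aeval (fun l => C δ * Y l) H = 0 := by
  classical
  let R := MvPolynomial σ K
  let Q := FractionRing (MvPolynomial σ K)
  -- common denominator
  obtain ⟨d, hd⟩ := IsLocalization.exist_integer_multiples_of_finset (nonZeroDivisors R)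
    (Finset.univ.biUnion fun l : σ => (Y l).support.image fun s => (Y l).coeff s)
  have hd0 : algebraMap R Q d ≠ 0 := by
    intro h0
    have h1 : (d : R) = 0 := (map_eq_zero_iff _ (IsFractionRing.injective R Q)).mp h0
    exact nonZeroDivisors.ne_zero d.2 h1
  have hcoef : ∀ l s, ∃ r : R, algebraMap R Q r = algebraMap R Q d * (Y l).coeff s := by
    intro l s
    by_cases hs : s ∈ (Y l).support
    · obtain ⟨r, hr⟩ := hd ((Y l).coeff s) (by
        rw [Finset.mem_biUnion]
        exact ⟨l, Finset.mem_univ _, Finset.mem_image_of_mem _ hs⟩)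
      refine ⟨r, ?_⟩
      rw [hr, Algebra.smul_def]
    · rw [MvPolynomial.notMem_support_iff] at hs
      exact ⟨0, by rw [hs, map_zero, mul_zero]⟩
  choose r hr using hcoef
  let Y' : σ → MvPolynomial (Fin m) R := fun l => ∑ s ∈ (Y l).support, monomial s (r l s)
  have hY' : ∀ l, map (algebraMap R Q) (Y' l) = C (algebraMap R Q d) * Y l := by
    intro l
    simp only [Y', map_sum, map_monomial, hr]
    conv_rhs => rw [(Y l).as_sum, Finset.mul_sum]
    refine Finset.sum_congr rfl fun s _ => ?_
    rw [C_mul_monomial]
  let e : Fin m ⊕ σ ≃ Fin (Fintype.card (Fin m ⊕ σ)) := Fintype.equivFin _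
  let Φ : MvPolynomial (Fin m) R ≃ₐ[K] MvPolynomial (Fin (Fintype.card (Fin m ⊕ σ))) K :=
    (sumAlgEquiv K (Fin m) σ).symm.trans (renameEquiv K e)
  refine ⟨algebraMap R Q d, hd0, Fintype.card (Fin m ⊕ σ), fun l => Φ (Y' l), fun H => ?_⟩
  have h1 : aeval (fun l => Φ (Y' l)) H = Φ (aeval Y' H) := by
    have h : (Φ : MvPolynomial (Fin m) R →ₐ[K]
        MvPolynomial (Fin (Fintype.card (Fin m ⊕ σ))) K).comp (aeval Y') =
        aeval (fun l => Φ (Y' l)) := by
      apply MvPolynomial.algHom_ext
      intro i
      show Φ (aeval Y' (X i)) = aeval (fun l => Φ (Y' l)) (X i)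
      rw [aeval_X, aeval_X]
    exact (congrArg (fun f => f H) h).symm
  have h2 : aeval (fun l => C (algebraMap R Q d) * Y l) H =
      map (algebraMap R Q) (aeval Y' H) := by
    have h : ((mapAlgHom (Algebra.ofId R Q) : MvPolynomial (Fin m) R →ₐ[R]
        MvPolynomial (Fin m) Q).restrictScalars K).comp (aeval Y') =
        aeval (fun l => C (algebraMap R Q d) * Y l) := by
      apply MvPolynomial.algHom_ext
      intro i
      simp only [AlgHom.comp_apply, aeval_X, AlgHom.restrictScalars_apply]
      exact hY' i
    exact (congrArg (fun f => f H) h).symm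
  rw [h1, h2, map_eq_zero_iff _ Φ.injective,
    map_eq_zero_iff _ (MvPolynomial.map_injective _ (IsFractionRing.injective R Q))]

end Clear

section Zero

variable {K : Type u} [Field K] {σ : Type}

/-- a polynomial vanishing at the nonzero multiples of a vector vanishes at the origin -/
theorem aeval_zero_of_line {F : Type*} [Field F] [Infinite F] [Algebra K F] (y : σ → F)
    (H : MvPolynomial σ K) (h : ∀ t : F, t ≠ 0 → aeval (t • y) H = 0) :
    aeval (0 : σ → F) H = 0 := by
  classical
  let p : Polynomial F := aeval (fun l => Polynomial.C (y l) * Polynomial.X) H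
  have hp : ∀ t : F, Polynomial.eval t p = aeval (t • y) H := by
    intro t
    have h1 : ((Polynomial.aeval t : Polynomial F →ₐ[F] F).restrictScalars K).comp
        (aeval (fun l => Polynomial.C (y l) * Polynomial.X)) = aeval (t • y) := by
      apply MvPolynomial.algHom_ext
      intro i
      show Polynomial.aeval t (aeval (fun l => Polynomial.C (y l) * Polynomial.X) (X i)) =
        aeval (t • y) (X i)
      rw [aeval_X, aeval_X, map_mul, Polynomial.aeval_C, Polynomial.aeval_X]
      exact mul_comm _ _
    have h2 := congrArg (fun f => f H) h1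
    exact h2
  have hp0 : p = 0 := by
    by_contra hne
    have hfin : Set.Finite {a : F | Polynomial.eval a p = 0} := by
      refine (Polynomial.finite_setOfPred_isRoot hne).subset ?_
      intro a ha
      exact ha
    have hinf : Set.Infinite ({0}ᶜ : Set F) := (Set.finite_singleton 0).infinite_compl
    exact hinf (hfin.subset fun t ht => by
      show Polynomial.eval t p = 0
      rw [hp]
      exact h t ht)
  have h3 := hp 0
  rw [hp0, Polynomial.eval_zero, zero_smul] at h3
  exact h3.symm

end Zero

end Pool.Agent.Work.PQP
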