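import Mathlib

/-!
# [P1] algebraic independence from derivations, [P2] common extensions  (helper18)
-/

namespace Pool.Agent.Work.PQP

open MvPolynomial

universe u

/-- the chain rule for a derivation -/
theorem der_aeval {K F : Type*} [Field K] [Field F] [Algebra K F] {b : ℕ} (a : Fin b → F)
    (D : Derivation K F F) (f : MvPolynomial (Fin b) K) :
    D (aeval a f) = ∑ j, aeval a (pderiv j f) * D (a j) := by
  induction f using MvPolynomial.induction_on with
  | C r =>
    rw [aeval_C, Derivation.map_algebraMap]
    simp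
  | add p q hp hq =>
    rw [map_add, map_add, hp, hq, ← Finset.sum_add_distrib]
    refine Finset.sum_congr rfl fun j _ => ?_
    rw [map_add, map_add, add_mul]
  | mul_X p l hp =>
    rw [map_mul, aeval_X, Derivation.leibniz, hp, smul_eq_mul, smul_eq_mul, Finset.mul_sum]
    have h : ∀ j, aeval a (pderiv j (p * X l)) * D (a j) =
        (if j = l then aeval a p * D (a l) else 0) + a l * (aeval a (pderiv j p) * D (a j)) := by
      intro j
      rw [pderiv_mul, map_add, map_mul, map_mul, aeval_X, pderiv_X]
      by_cases hj : j = l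
      · subst hj
        rw [Pi.single_eq_same, map_one, if_pos rfl]
        ring
      · rw [Pi.single_eq_of_ne (Ne.symm hj), map_zero, if_neg hj]
        ring
    rw [Finset.sum_congr rfl fun j _ => h j, Finset.sum_add_distrib]
    congr 1
    rw [Finset.sum_ite_eq' Finset.univ l, if_pos (Finset.mem_univ l)]

/-- the degree goes down -/
theorem totalDegree_pderiv_lt' {K : Type*} [Field K] {b : ℕ} (i : Fin b)
    (f : MvPolynomial (Fin b) K) (n : ℕ) (hf : f.totalDegree ≤ n + 1) :
    (pderiv i f).totalDegree ≤ n := by
  classical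
  refine Finset.sup_le fun m hm => ?_
  rw [mem_support_iff, coeff_pderiv] at hm
  have h1 : m + Finsupp.single i 1 ∈ f.support := mem_support_iff.mpr (left_ne_zero_of_mul hm)
  have h2 := (le_totalDegree h1).trans hf
  rw [Finsupp.sum_fintype _ _ (fun _ => rfl)] at h2 ⊢
  simp only [Finsupp.add_apply, Finset.sum_add_distrib] at h2
  have h3 : ∑ j, (Finsupp.single i 1 : Fin b →₀ ℕ) j = 1 := by
    rw [Finset.sum_eq_single i]
    · simp
    · intro j _ hj
      rw [Finsupp.single_eq_of_ne hj]
    · intro hi
      exact absurd (Finset.mem_univ i) hi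
  omega

/-- [P1] algebraic independence from derivations (minimal degree) -/
theorem algInd_of_der {K F : Type*} [Field K] [CharZero K] [Field F] [Algebra K F] {b : ℕ}
    (a : Fin b → F) (h : ∀ c : Fin b → F, ∃ D : Derivation K F F, ∀ i, D (a i) = c i) :
    AlgebraicIndependent K a := by
  classical
  rw [algebraicIndependent_iff]
  have key : ∀ n, ∀ f : MvPolynomial (Fin b) K, f.totalDegree ≤ n → aeval a f = 0 → f = 0 := by
    intro n
    induction n with
    | zero =>
      intro f hf h0
      have h1 : f = C (coeff 0 f) := totalDegree_eq_zero_iff_eq_C.mp (Nat.le_zero.mp hf)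
      rw [h1, aeval_C] at h0
      rw [h1, (map_eq_zero (algebraMap K F)).mp h0, C_0]
    | succ n ih =>
      intro f hf h0
      have hd : ∀ i, pderiv i f = 0 := by
        intro i
        refine ih _ (totalDegree_pderiv_lt' i f n hf) ?_
        obtain ⟨D, hD⟩ := h (Pi.single i 1)
        have h1 := der_aeval a D f
        rw [h0, map_zero, Finset.sum_eq_single i] at h1
        · rw [hD, Pi.single_eq_same, mul_one] at h1
          exact h1.symm
        · intro j _ hj
          rw [hD, Pi.single_eq_of_ne hj, mul_zero]
        · intro hi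
          exact absurd (Finset.mem_univ i) hi
      have hc : f = C (coeff 0 f) := by
        ext m
        rw [coeff_C]
        split_ifs with hm
        · rw [hm]
        · obtain ⟨i, hi⟩ : ∃ i, m i ≠ 0 := by
            by_contra hcon
            push Not at hcon
            exact hm (Finsupp.ext fun i => (hcon i).symm)
          have h1 := coeff_pderiv (i := i) f (m - Finsupp.single i 1)
          rw [hd i, coeff_zero, tsub_add_cancel_of_le (Finsupp.single_le_iff.mpr (by omega))] at h1
          rcases mul_eq_zero.mp h1.symm with h2 | h2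
          · exact h2
          · exfalso
            exact Nat.cast_add_one_ne_zero _ h2
      rw [hc, aeval_C] at h0
      rw [hc, (map_eq_zero (algebraMap K F)).mp h0, C_0]
  exact fun f hf => key _ f le_rfl hf

open TensorProduct in
/-- two fields with algebraically independent families of the same size map to an algebraically
closed field in which the families agree -/
theorem amalgam_aux {K E' K' : Type u} [Field K] [Field E'] [Field K'] [Algebra K E']
    [Algebra K K'] {b : ℕ} (a : Fin b → E') (a' : Fin b → K') (ha : AlgebraicIndependent K a)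
    (ha' : AlgebraicIndependent K a') :
    ∃ (Ω : Type u) (_ : Field Ω) (_ : IsAlgClosed Ω) (jE : E' →+* Ω) (jK : K' →+* Ω),
      (∀ r : K, jE (algebraMap K E' r) = jK (algebraMap K K' r)) ∧ ∀ j, jE (a j) = jK (a' j) := by
  classical
  let F0 : Type u := FractionRing (MvPolynomial (Fin b) K)
  let φ : F0 →+* E' :=
    IsFractionRing.lift (g := (aeval a : MvPolynomial (Fin b) K →ₐ[K] E').toRingHom) ha
  let φ' : F0 →+* K' :=
    IsFractionRing.lift (g := (aeval a' : MvPolynomial (Fin b) K →ₐ[K] K').toRingHom) ha'
  have hφ : ∀ f, φ (algebraMap (MvPolynomial (Fin b) K) F0 f) = aeval a f := fun f =>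
    IsFractionRing.lift_algebraMap _ f
  have hφ' : ∀ f, φ' (algebraMap (MvPolynomial (Fin b) K) F0 f) = aeval a' f := fun f =>
    IsFractionRing.lift_algebraMap _ f
  let _ : Algebra F0 E' := φ.toAlgebra
  let _ : Algebra F0 K' := φ'.toAlgebra
  have hnt : Nontrivial (E' ⊗[F0] K') :=
    Algebra.TensorProduct.nontrivial_of_algebraMap_injective_of_flat_left F0 E' K' φ'.injective
  obtain ⟨M, hM⟩ := Ideal.exists_maximal (E' ⊗[F0] K')
  let _ : Field ((E' ⊗[F0] K') ⧸ M) := Ideal.Quotient.field M
  let q : (E' ⊗[F0] K') →+* AlgebraicClosure ((E' ⊗[F0] K') ⧸ M) :=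
    (algebraMap ((E' ⊗[F0] K') ⧸ M) (AlgebraicClosure ((E' ⊗[F0] K') ⧸ M))).comp
      (Ideal.Quotient.mk M)
  let jE := q.comp (Algebra.TensorProduct.includeLeft : E' →ₐ[F0] E' ⊗[F0] K').toRingHom
  let jK := q.comp (Algebra.TensorProduct.includeRight : K' →ₐ[F0] E' ⊗[F0] K').toRingHom
  have hj : ∀ f : F0, jE (φ f) = jK (φ' f) := by
    intro f
    have h1 : (Algebra.TensorProduct.includeLeft : E' →ₐ[F0] E' ⊗[F0] K') (φ f) =
        (Algebra.TensorProduct.includeRight : K' →ₐ[F0] E' ⊗[F0] K') (φ' f) := by
      have h2 : φ f = algebraMap F0 E' f := rfl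
      have h3 : φ' f = algebraMap F0 K' f := rfl
      rw [h2, h3, AlgHom.commutes, AlgHom.commutes]
    change q _ = q _
    exact congrArg q h1
  refine ⟨AlgebraicClosure ((E' ⊗[F0] K') ⧸ M), inferInstance, inferInstance, jE, jK,
    fun r => ?_, fun j => ?_⟩
  · have h1 := hj (algebraMap (MvPolynomial (Fin b) K) F0 (C r))
    rw [hφ, hφ', aeval_C, aeval_C] at h1
    exact h1
  · have h1 := hj (algebraMap (MvPolynomial (Fin b) K) F0 (X j))
    rw [hφ, hφ', aeval_X, aeval_X] at h1
    exact h1

/-- [P2] a common algebraically closed extension: maximal ideal of the tensor product over the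
field of fractions of the polynomial ring in `b` variables, then algebraic closure -/
theorem amalgam {K E' K' : Type u} [Field K] [Field E'] [Field K'] [Algebra K E'] [Algebra K K']
    {b : ℕ} (a : Fin b → E') (a' : Fin b → K') (ha : AlgebraicIndependent K a)
    (ha' : AlgebraicIndependent K a') :
    ∃ (Ω : Type u) (_ : Field Ω) (_ : Algebra K Ω) (_ : Algebra K' Ω) (_ : IsScalarTower K K' Ω)
      (_ : IsAlgClosed Ω) (i : E' →ₐ[K] Ω), ∀ j, i (a j) = algebraMap K' Ω (a' j) := by
  obtain ⟨Ω, hF, hA, jE, jK, h1, h2⟩ := amalgam_aux a a' ha ha'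
  let aK' : Algebra K' Ω := jK.toAlgebra
  let aK : Algebra K Ω := (jK.comp (algebraMap K K')).toAlgebra
  have hst : IsScalarTower K K' Ω := IsScalarTower.of_algebraMap_eq' rfl
  exact ⟨Ω, hF, aK, aK', hst, hA, { toRingHom := jE, commutes' := h1 }, h2⟩

end Pool.Agent.Work.PQP
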