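import Mathlib
import Pool.Agent.Work.MP_b62148_ag.QP.DefsP

/-!
[P3a] Independence of the gradients at a vector with enough derivations.
-/

namespace Pool.Agent.Work.PQP

open MvPolynomial

universe u

section Lin

variable {K : Type u} [Field K] {σ : Type} [Fintype σ] {μ : Type} {b : ℕ}
  {L : μ → σ → K} {A : Fin b → Matrix σ σ K} {y : σ → K} {κ : ℕ}

/-- scalar extension of the independence at the base point -/
theorem indep_ext (h : Smooth L A y) (F : Type*) [Field F] [Algebra K F] :
    LinearIndependent F (Sum.elim (fun m => cv F (L m)) (fun i => mv (A i) (cv F y))) := by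
  have h1 : LinearIndependent F (fun j => algebraMap K F ∘
      (Sum.elim (fun m => cv K (L m)) (fun i => mv (A i) y)) j) :=
    linearIndependent_algebraMap_comp_iff.mpr h
  convert h1 using 1
  funext j
  rcases j with m | i
  · funext l
    simp [cv]
  · funext l
    simp [mv, cv]

/-- the linear map given by a combination of the matrices -/
def mvLin {F : Type*} [Field F] [Algebra K F] (A : Fin b → Matrix σ σ K) (w : Fin b → F) :
    (σ → F) →ₗ[F] (σ → F) where
  toFun v := ∑ i, w i • mv (A i) v
  map_add' v v' := by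
    rw [← Finset.sum_add_distrib]
    refine Finset.sum_congr rfl fun i _ => ?_
    rw [← smul_add]
    congr 1
    funext l
    simp only [mv, Pi.add_apply, mul_add, Finset.sum_add_distrib]
  map_smul' c v := by
    simp only [RingHom.id_apply]
    rw [Finset.smul_sum]
    refine Finset.sum_congr rfl fun i _ => ?_
    rw [smul_comm c (w i)]
    congr 1
    funext l
    simp only [mv, Pi.smul_apply, smul_eq_mul, Finset.mul_sum]
    exact Finset.sum_congr rfl fun l _ => by ring

variable [Fintype μ]

/-- [P3a] independence of the gradients at a vector with enough derivations -/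
theorem indep_der (hg : Good L A y κ) {F : Type u} [Field F] [Algebra K F] (η : σ → F)
    (T : Submodule F (σ → F)) (hT1 : ∀ v ∈ T, ∀ m, ln (L m) v = 0)
    (hT2 : Fintype.card σ ≤ Module.finrank F T + Fintype.card μ + b)
    (hder : ∀ v ∈ T, ∃ D : Derivation K F F, ∀ l, D (η l) = v l) :
    Indep2 L A η (cv F y) := by
  classical
  by_contra hdep
  unfold Indep2 at hdep
  rw [Fintype.not_linearIndependent_iff] at hdep
  obtain ⟨a, ha, j0, hj0⟩ := hdep
  have ha' : ∑ m, a (Sum.inl m) • cv F (L m) + (∑ i, a (Sum.inr (Sum.inl i)) • mv (A i) η +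
      ∑ i, a (Sum.inr (Sum.inr i)) • mv (A i) (cv F y)) = 0 := by
    rw [Fintype.sum_sum_type, Fintype.sum_sum_type] at ha
    exact ha
  by_cases hw : (fun i => a (Sum.inr (Sum.inl i))) = 0
  · have hw' : ∀ i, a (Sum.inr (Sum.inl i)) = 0 := fun i => congrFun hw i
    have h1 := Fintype.linearIndependent_iff.mp (indep_ext hg.indep F)
      (Sum.elim (fun m => a (Sum.inl m)) (fun i => a (Sum.inr (Sum.inr i)))) (by
        have hz : ∑ i, a (Sum.inr (Sum.inl i)) • mv (A i) η = 0 :=
          Finset.sum_eq_zero (fun i _ => by rw [hw' i, zero_smul])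
        rw [hz, zero_add] at ha'
        rw [Fintype.sum_sum_type]
        simp only [Sum.elim_inl, Sum.elim_inr]
        exact ha')
    apply hj0
    rcases j0 with m | i | i
    · exact h1 (Sum.inl m)
    · exact hw' i
    · exact h1 (Sum.inr i)
  · set w : Fin b → F := fun i => a (Sum.inr (Sum.inl i)) with hwdef
    set SL : Submodule F (σ → F) := Submodule.span F (Set.range fun m => cv F (L m)) with hSL
    have hmem : ∀ c : μ → F, ∑ m, c m • cv F (L m) ∈ SL := fun c =>
      Submodule.sum_mem _ fun m _ => Submodule.smul_mem _ _ (Submodule.subset_span ⟨m, rfl⟩)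
    let h : Fin b ⊕ Fin b → (σ → F) ⧸ SL :=
      fun j => SL.mkQ (Sum.elim (fun i => mv (A i) η) (fun i => mv (A i) (cv F y)) j)
    have hnli : ¬ LinearIndependent F h := by
      intro hli
      have h1 := Fintype.linearIndependent_iff.mp hli (fun j => a (Sum.inr j)) (by
        have h2 : ∑ j, a (Sum.inr j) • h j = SL.mkQ (∑ i, a (Sum.inr (Sum.inl i)) • mv (A i) η +
            ∑ i, a (Sum.inr (Sum.inr i)) • mv (A i) (cv F y)) := by
          rw [Fintype.sum_sum_type]
          simp only [map_add, map_sum, map_smul]
          rfl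
        rw [h2]
        have h3 : ∑ i, a (Sum.inr (Sum.inl i)) • mv (A i) η +
            ∑ i, a (Sum.inr (Sum.inr i)) • mv (A i) (cv F y) =
              - ∑ m, a (Sum.inl m) • cv F (L m) := by
          rw [eq_neg_iff_add_eq_zero, add_comm]
          exact ha'
        rw [h3, map_neg, neg_eq_zero, Submodule.mkQ_apply, Submodule.Quotient.mk_eq_zero]
        exact hmem _)
      apply hw
      funext i
      exact h1 (Sum.inl i)
    have hrank : (Set.range h).finrank F < b + b := by
      by_contra hcon
      push Not at hcon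
      apply hnli
      rw [linearIndependent_iff_card_le_finrank_span]
      rw [Fintype.card_sum, Fintype.card_fin]
      exact hcon
    let φ : T →ₗ[F] (σ → F) ⧸ SL := SL.mkQ ∘ₗ mvLin A w ∘ₗ T.subtype
    have hrange : LinearMap.range φ ≤ Submodule.span F (Set.range h) := by
      rintro _ ⟨⟨v, hv⟩, rfl⟩
      obtain ⟨D, hD⟩ := hder v hv
      have hrel : ∑ m, D (a (Sum.inl m)) • cv F (L m) +
          (∑ i, D (a (Sum.inr (Sum.inl i))) • mv (A i) η +
            ∑ i, D (a (Sum.inr (Sum.inr i))) • mv (A i) (cv F y)) + ∑ i, w i • mv (A i) v = 0 := by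
        funext l
        have h1 := congrFun ha' l
        have h2 := congrArg D h1
        simp only [Pi.add_apply, Finset.sum_apply, Pi.smul_apply, smul_eq_mul, Pi.zero_apply,
          map_add, map_sum, Derivation.leibniz, map_zero, cv, mv, Derivation.map_algebraMap,
          hD, mul_zero, zero_add, add_zero, Finset.sum_const_zero] at h2 ⊢
        rw [Finset.sum_add_distrib] at h2
        rw [← h2]
        have e1 : ∀ x : F, ∀ z : F, x * z = z * x := fun x z => mul_comm x z
        simp only [hwdef, e1 (D _)]
        ring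
      have h4 : φ ⟨v, hv⟩ = - ∑ j, D (a (Sum.inr j)) • h j := by
        have h5 : φ ⟨v, hv⟩ = SL.mkQ (∑ i, w i • mv (A i) v) := rfl
        have h6 : ∑ i, w i • mv (A i) v = - (∑ i, D (a (Sum.inr (Sum.inl i))) • mv (A i) η +
            ∑ i, D (a (Sum.inr (Sum.inr i))) • mv (A i) (cv F y)) -
              ∑ m, D (a (Sum.inl m)) • cv F (L m) := by
          have h7 := hrel
          rw [add_eq_zero_iff_eq_neg'] at h7
          rw [h7]
          abel
        have h8 : SL.mkQ (∑ m, D (a (Sum.inl m)) • cv F (L m)) = 0 := by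
          rw [Submodule.mkQ_apply, Submodule.Quotient.mk_eq_zero]
          exact hmem _
        rw [h5, h6, map_sub, h8, sub_zero, map_neg, Fintype.sum_sum_type]
        simp only [map_add, map_sum, map_smul]
        rfl
      rw [h4]
      exact Submodule.neg_mem _ (Submodule.sum_mem _ fun j _ =>
        Submodule.smul_mem _ _ (Submodule.subset_span ⟨j, rfl⟩))
    have hker : Module.finrank F (LinearMap.ker φ) ≤ κ := by
      rw [← Submodule.finrank_map_subtype_eq T (LinearMap.ker φ)]
      refine le_trans (Submodule.finrank_mono ?_) (hg.ker F w hw)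
      rintro _ ⟨⟨v, hv⟩, hvk, rfl⟩
      refine ⟨hT1 v hv, ?_⟩
      have h1 : SL.mkQ (∑ i, w i • mv (A i) v) = 0 := hvk
      rw [Submodule.mkQ_apply, Submodule.Quotient.mk_eq_zero] at h1
      exact h1
    have hdim := LinearMap.finrank_range_add_finrank_ker φ
    have hr2 : Module.finrank F (LinearMap.range φ) ≤ (Set.range h).finrank F :=
      Submodule.finrank_mono hrange
    have hnum := hg.num
    have hb : b ^ 2 + 5 ≤ 4 * b := by omega
    nlinarith [sq_nonneg ((b : ℤ) - 2), hb, (by exact_mod_cast hb : (b : ℤ) ^ 2 + 5 ≤ 4 * b)]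

end Lin

end Pool.Agent.Work.PQP
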