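import Mathlib
import Pool.Agent.Work.MP_b62148_ag.Generic
import Pool.Agent.Work.MP_b62148_ag.QP.BasicP
import Pool.Agent.Work.MP_b62148_ag.QP.AlgP
import Pool.Agent.Work.MP_b62148_ag.QP.IndepP

/-!
The generic tangent vector at the base point and the generic point of the component through a
smooth point.
-/

namespace Pool.Agent.Work.PQP

open MvPolynomial

universe u

section Gen

variable {K : Type u} [Field K] {σ : Type} [Fintype σ] {μ : Type} [Fintype μ] {b : ℕ}
  {L : μ → σ → K} {A : Fin b → Matrix σ σ K} {y : σ → K} {κ : ℕ}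

theorem ln_cvv {R : Type*} [CommRing R] [Algebra K R] (M v : σ → K) :
    ln M (cv R v) = algebraMap K R (∑ l, M l * v l) := by
  simp only [ln, cv, map_sum, map_mul]

theorem mv_cv {R : Type*} [CommRing R] [Algebra K R] (M : Matrix σ σ K) (v : σ → K) :
    mv M (cv R v) = cv R (mv M v) := by
  funext l
  simp only [mv, cv, map_sum, map_mul]
  rfl

theorem bf_eq_sum {F : Type*} [Field F] [Algebra K F] (hs : ∀ i l l', A i l l' = A i l' l)
    (i : Fin b) (x v : σ → F) : bf (A i) x v = ∑ l, mv (A i) x l * v l := by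
  rw [bf_comm (hs i)]
  simp only [bf]
  exact Finset.sum_congr rfl fun l _ => mul_comm _ _

/-- the space of tangent vectors at a point -/
def tang (L : μ → σ → K) (A : Fin b → Matrix σ σ K) {F : Type*} [Field F] [Algebra K F]
    (x : σ → F) : Submodule F (σ → F) :=
  perp (Sum.elim (fun m => cv F (L m)) (fun i => mv (A i) x))

omit [Fintype μ] in
theorem mem_tang {F : Type*} [Field F] [Algebra K F] {x v : σ → F} :
    v ∈ tang L A x ↔ (∀ m, ln (L m) v = 0) ∧ ∀ i, ∑ l, mv (A i) x l * v l = 0 := by
  constructor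
  · intro h
    exact ⟨fun m => h (Sum.inl m), fun i => h (Sum.inr i)⟩
  · rintro ⟨h1, h2⟩ (m | i)
    · exact h1 m
    · exact h2 i

theorem finrank_tang {F : Type*} [Field F] [Algebra K F] (x : σ → F) :
    Fintype.card σ ≤ Module.finrank F (tang L A x) + Fintype.card μ + b := by
  have h : Fintype.card σ ≤ Module.finrank F (tang L A x) + Fintype.card (μ ⊕ Fin b) :=
    finrank_perp _
  rw [Fintype.card_sum, Fintype.card_fin] at h
  omega

/-- prescribed values of the gradients at two vectors -/
theorem Indep2.exists_vec {F : Type*} [Field F] [Algebra K F] {x x' : σ → F}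
    (h : Indep2 L A x x') (c c' : Fin b → F) : ∃ v : σ → F, (∀ m, ln (L m) v = 0) ∧
      (∀ i, ∑ l, mv (A i) x l * v l = c i) ∧ ∀ i, ∑ l, mv (A i) x' l * v l = c' i := by
  classical
  obtain ⟨d, hd⟩ := exists_dual_vec _ h
  have key : ∀ i (a : μ ⊕ Fin b ⊕ Fin b → F), ∑ l, (Sum.elim (fun m => cv F (L m))
      (Sum.elim (fun i => mv (A i) x) (fun i => mv (A i) x'))) i l *
      (∑ j, a j • d j) l = a i := by
    intro i a
    simp only [Finset.sum_apply, Pi.smul_apply, smul_eq_mul, Finset.mul_sum]
    rw [Finset.sum_comm]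
    rw [Finset.sum_eq_single i]
    · have := hd i i
      rw [if_pos rfl] at this
      have h2 : a i * ∑ l, (Sum.elim (fun m => cv F (L m))
          (Sum.elim (fun i => mv (A i) x) (fun i => mv (A i) x'))) i l * d i l = a i := by
        rw [this, mul_one]
      refine Eq.trans ?_ h2
      rw [Finset.mul_sum]
      exact Finset.sum_congr rfl fun l _ => by ring
    · intro j _ hj
      have := hd i j
      rw [if_neg (Ne.symm hj)] at this
      have h2 : ∑ l, a j * (Sum.elim (fun m => cv F (L m))
          (Sum.elim (fun i => mv (A i) x) (fun i => mv (A i) x')) i l * d j l) = 0 := by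
        rw [← Finset.mul_sum, this, mul_zero]
      rw [← h2]
      exact Finset.sum_congr rfl fun l _ => by ring
    · intro h; exact absurd (Finset.mem_univ _) h
  refine ⟨∑ j, (Sum.elim (fun _ => 0) (Sum.elim c c') : μ ⊕ Fin b ⊕ Fin b → F) j • d j,
    fun m => ?_, fun i => ?_, fun i => ?_⟩
  · exact key (Sum.inl m) _
  · exact key (Sum.inr (Sum.inl i)) _
  · exact key (Sum.inr (Sum.inr i)) _

variable [CharZero K]

/-- the generic vector, over an extension with independent coordinates -/
theorem exists_z_aux (hg : Good L A y κ) {F : Type u} [Field F] [Algebra K F] (t : σ → F)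
    (hder : ∀ v : σ → F, ∃ D : Derivation K F F, ∀ l, D (t l) = v l) :
    ∃ z : σ → F, (∀ m, ln (L m) z = 0) ∧
      (∀ i, bf (A i) (cv _ y) z = 0) ∧ Indep2 L A z (cv _ y) ∧
      AlgebraicIndependent K (fun i => bf (A i) z z) := by
  classical
  have hchar : CharZero F := charZero_of_injective_algebraMap (algebraMap K F).injective
  obtain ⟨M, hM⟩ : ∃ M : μ ⊕ Fin b → σ → K,
      M = Sum.elim (fun m => cv K (L m)) (fun i => mv (A i) y) := ⟨_, rfl⟩
  have hMi : LinearIndependent K M := by rw [hM]; exact hg.indep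
  obtain ⟨d, hd⟩ := exists_dual_vec M hMi
  obtain ⟨z, hz⟩ : ∃ z : σ → F, z = t - ∑ j, ln (M j) t • cv F (d j) := ⟨_, rfl⟩
  have hMz : ∀ i, ln (M i) z = 0 := by
    intro i
    have h1 : ln (M i) (∑ j, ln (M j) t • cv F (d j)) = ∑ j, ln (M j) t * ln (M i) (cv F (d j)) := by
      have h2 : ∀ s : Finset (μ ⊕ Fin b), ln (M i) (∑ j ∈ s, ln (M j) t • cv F (d j)) =
          ∑ j ∈ s, ln (M j) t * ln (M i) (cv F (d j)) := by
        intro s
        induction s using Finset.induction_on with
        | empty => simp [ln]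
        | insert a s ha ih => rw [Finset.sum_insert ha, Finset.sum_insert ha, ln_add, ln_smul, ih]
      exact h2 _
    rw [hz, ln_sub, h1]
    simp only [ln_cvv, hd]
    rw [Finset.sum_eq_single i]
    · simp
    · intro j _ hj
      rw [if_neg (Ne.symm hj), map_zero, mul_zero]
    · intro h; exact absurd (Finset.mem_univ _) h
  have hzL : ∀ m, ln (L m) z = 0 := by
    intro m
    have := hMz (Sum.inl m)
    rw [hM] at this
    exact this
  have hzA : ∀ i, ln (mv (A i) y) z = 0 := by
    intro i
    have := hMz (Sum.inr i)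
    rw [hM] at this
    exact this
  have hbf : ∀ (i : Fin b) (v : σ → F), bf (A i) (cv F y) v = ln (mv (A i) y) v := by
    intro i v
    rw [bf_eq_sum hg.symm, mv_cv]
    rfl
  have hderz : ∀ v : σ → F, (∀ j, ln (M j) v = 0) → ∃ D : Derivation K F F, ∀ l, D (z l) = v l := by
    intro v hv
    obtain ⟨D, hD⟩ := hder v
    refine ⟨D, fun l => ?_⟩
    have h1 : ∀ j, D (ln (M j) t) = 0 := by
      intro j
      rw [der_ln]
      simp only [hD]
      exact hv j
    rw [hz, Pi.sub_apply, Finset.sum_apply, map_sub, map_sum, hD]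
    have h2 : ∀ j, D ((ln (M j) t • cv F (d j)) l) = 0 := by
      intro j
      rw [Pi.smul_apply, smul_eq_mul, Derivation.leibniz, h1]
      unfold cv
      rw [Derivation.map_algebraMap, smul_zero, smul_zero, add_zero]
    rw [Finset.sum_eq_zero fun j _ => h2 j, sub_zero]
  have hMv : ∀ v : σ → F, (∀ m, ln (L m) v = 0) → (∀ i, ∑ l, mv (A i) (cv F y) l * v l = 0) →
      ∀ j, ln (M j) v = 0 := by
    rintro v h1 h2 (m | i)
    · rw [hM]; exact h1 m
    · rw [hM]
      have := h2 i
      rw [← bf_eq_sum hg.symm, hbf] at this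
      exact this
  have hind : Indep2 L A z (cv F y) := by
    refine indep_der hg z (tang L A (cv F y)) ?_ ?_ ?_
    · intro v hv m
      exact (mem_tang.mp hv).1 m
    · exact finrank_tang _
    · intro v hv
      obtain ⟨h1, h2⟩ := mem_tang.mp hv
      exact hderz v (hMv v h1 h2)
  refine ⟨z, hzL, fun i => by rw [hbf]; exact hzA i, hind, ?_⟩
  refine algInd_of_der _ fun c => ?_
  obtain ⟨v, hv1, hv2, hv3⟩ := hind.exists_vec (fun i => c i / 2) 0
  obtain ⟨D, hD⟩ := hderz v (hMv v hv1 hv3)
  refine ⟨D, fun i => ?_⟩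
  have h1 : bf (A i) z v = c i / 2 := by rw [bf_eq_sum hg.symm, hv2]
  rw [der_bf]
  simp only [hD]
  have h2 : bf (A i) (fun l => v l) z = bf (A i) z v := bf_comm (hg.symm i) _ _
  rw [h2]
  have h3 : bf (A i) z (fun l => v l) = bf (A i) z v := rfl
  rw [h3, h1]
  ring

/-- [P4] the generic vector of the tangent space at the base point -/
theorem exists_z (hg : Good L A y κ) :
    ∃ z : σ → FractionRing (MvPolynomial σ K), (∀ m, ln (L m) z = 0) ∧
      (∀ i, bf (A i) (cv _ y) z = 0) ∧ Indep2 L A z (cv _ y) ∧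
      AlgebraicIndependent K (fun i => bf (A i) z z) := by
  refine exists_z_aux hg
    (fun l => algebraMap (MvPolynomial σ K) (FractionRing (MvPolynomial σ K)) (X l)) ?_
  intro v
  have i1 : Algebra.FormallyEtale (MvPolynomial σ K) (FractionRing (MvPolynomial σ K)) :=
    Algebra.FormallyEtale.of_isLocalization (nonZeroDivisors (MvPolynomial σ K))
  obtain ⟨D, hD⟩ := PD.exists_extend_derivation (R := K) (S := MvPolynomial σ K)
    (T := FractionRing (MvPolynomial σ K)) (M := FractionRing (MvPolynomial σ K))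
    (MvPolynomial.mkDerivation K v)
  refine ⟨D, fun l => ?_⟩
  rw [hD, mkDerivation_X]

/-- [P5] the generic point of the component through a smooth point -/
theorem exists_eta (hg : Good L A y κ) {F : Type u} [Field F] [Algebra K F] (x : σ → F)
    (hx : OnX L A x) (hs : Smooth L A x) :
    ∃ (E : Type u) (_ : Field E) (_ : Algebra K E) (η : σ → E), OnX L A η ∧
      Indep2 L A η (cv E y) ∧ AlgebraicIndependent K (fun i => bf (A i) (cv E y) η) ∧
      ∀ H : MvPolynomial σ K, aeval η H = 0 → aeval x H = 0 := by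
  classical
  have hchar : CharZero F := charZero_of_injective_algebraMap (algebraMap K F).injective
  obtain ⟨d, hd⟩ := exists_dual_vec _ hs
  let A' : Fin b → Matrix σ σ F := fun i => (A i).map (algebraMap K F)
  let G : μ ⊕ Fin b → MvPolynomial σ F :=
    Sum.elim (fun m => lp (cv F (L m))) (fun i => qp (A' i))
  have hmv : ∀ {R : Type u} [CommRing R] [Algebra F R] [Algebra K R] [IsScalarTower K F R]
      (i : Fin b) (x : σ → R), mv (A' i) x = mv (A i) x := by
    intro R _ _ _ _ i x
    funext l
    simp only [mv, A', Matrix.map_apply]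
    refine Finset.sum_congr rfl fun l' _ => ?_
    rw [← IsScalarTower.algebraMap_apply]
  have hbf : ∀ {R : Type u} [CommRing R] [Algebra F R] [Algebra K R] [IsScalarTower K F R]
      (i : Fin b) (x y : σ → R), bf (A' i) x y = bf (A i) x y := by
    intro R _ _ _ _ i x y
    simp only [bf, hmv]
  have hln : ∀ {R : Type u} [CommRing R] [Algebra F R] [Algebra K R] [IsScalarTower K F R]
      (m : μ) (x : σ → R), ln (cv F (L m)) x = ln (L m) x := by
    intro R _ _ _ _ m x
    simp only [ln, cv]
    refine Finset.sum_congr rfl fun l' _ => ?_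
    rw [← IsScalarTower.algebraMap_apply]
  let u : μ ⊕ Fin b → σ → F := Sum.elim (fun m => d (Sum.inl m))
    (fun i => (2 : F)⁻¹ • d (Sum.inr i))
  have hdd : ∀ (i : Fin b) (v : σ → F), PDC.dd (qp (A' i)) x v =
      2 * ∑ l, mv (A i) x l * v l := by
    intro i v
    rw [dd_qp, hbf, hbf, bf_comm (hg.symm i) v x, bf_eq_sum hg.symm]
    ring
  have hddL : ∀ (m : μ) (v : σ → F), PDC.dd (lp (cv F (L m))) x v =
      ∑ l, cv F (L m) l * v l := by
    intro m v
    rw [dd_lp]
    rfl
  obtain ⟨E, i1, i2, i3, η, h1, h2, h3⟩ := PDC.exists_gen G x (by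
    rintro (m | i)
    · show aeval x (lp (cv F (L m))) = 0
      rw [aeval_lp, hln]
      exact hx.1 m
    · show aeval x (qp (A' i)) = 0
      rw [aeval_qp, hbf]
      exact hx.2 i) u (by
    have key : ∀ p q, ∑ l, (Sum.elim (fun m => cv F (L m)) (fun i => mv (A i) x)) p l * d q l =
        if p = q then 1 else 0 := hd
    rintro (m | i) (m' | i')
    · show PDC.dd (lp (cv F (L m))) x (d (Sum.inl m')) = _
      rw [hddL]
      exact key (Sum.inl m) (Sum.inl m')
    · show PDC.dd (lp (cv F (L m))) x ((2 : F)⁻¹ • d (Sum.inr i')) = _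
      rw [PDC.dd_smul_right, hddL]
      have := key (Sum.inl m) (Sum.inr i')
      rw [if_neg (by simp)] at this ⊢
      have h5 : ∑ l, cv F (L m) l * d (Sum.inr i') l = 0 := this
      rw [h5, mul_zero]
    · show PDC.dd (qp (A' i)) x (d (Sum.inl m')) = _
      rw [hdd]
      have := key (Sum.inr i) (Sum.inl m')
      rw [if_neg (by simp)] at this ⊢
      have h5 : ∑ l, mv (A i) x l * d (Sum.inl m') l = 0 := this
      rw [h5, mul_zero]
    · show PDC.dd (qp (A' i)) x ((2 : F)⁻¹ • d (Sum.inr i')) = _
      rw [PDC.dd_smul_right, hdd]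
      have := key (Sum.inr i) (Sum.inr i')
      have h5 : ∑ l, mv (A i) x l * d (Sum.inr i') l =
        if (Sum.inr i : μ ⊕ Fin b) = Sum.inr i' then 1 else 0 := this
      rw [h5]
      split_ifs
      · rw [mul_one, inv_mul_cancel₀ two_ne_zero]
      · ring)
  let i4 : Algebra K E := ((algebraMap F E).comp (algebraMap K F)).toAlgebra
  have i5 : IsScalarTower K F E := IsScalarTower.of_algebraMap_eq' rfl
  have hcharE : CharZero E := charZero_of_injective_algebraMap (algebraMap K E).injective
  have hη : OnX L A η := by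
    constructor
    · intro m
      have := h2 (Sum.inl m)
      have h5 : aeval η (lp (cv F (L m))) = 0 := this
      rw [aeval_lp, hln] at h5
      exact h5
    · intro i
      have h5 : aeval η (qp (A' i)) = 0 := h2 (Sum.inr i)
      rw [aeval_qp, hbf] at h5
      exact h5
  have hderE : ∀ v ∈ tang L A η, ∃ D : Derivation K E E, ∀ l, D (η l) = v l := by
    intro v hv
    obtain ⟨hv1, hv2⟩ := mem_tang.mp hv
    obtain ⟨D, hD⟩ := h3 v (by
      rintro (m | i)
      · show PDC.dd (lp (cv F (L m))) η v = 0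
        rw [dd_lp, hln]
        exact hv1 m
      · show PDC.dd (qp (A' i)) η v = 0
        rw [dd_qp, hbf, hbf, bf_comm (hg.symm i) v η, bf_eq_sum hg.symm, hv2, add_zero])
    exact ⟨D.restrictScalars K, hD⟩
  have hind : Indep2 L A η (cv E y) := by
    refine indep_der hg η (tang L A η) (fun v hv m => (mem_tang.mp hv).1 m) (finrank_tang _) hderE
  refine ⟨E, i1, i4, η, hη, hind, ?_, ?_⟩
  · refine algInd_of_der _ fun c => ?_
    obtain ⟨v, hv1, hv2, hv3⟩ := hind.exists_vec 0 c
    obtain ⟨D, hD⟩ := hderE v (mem_tang.mpr ⟨hv1, hv2⟩)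
    refine ⟨D, fun i => ?_⟩
    rw [der_bf]
    simp only [hD]
    have h5 : (fun l => D (cv E y l)) = 0 := by
      funext l
      unfold cv
      rw [Derivation.map_algebraMap]
      rfl
    rw [h5]
    have h6 : bf (A i) (0 : σ → E) η = 0 := by simp [bf]
    have h7 : bf (A i) (cv E y) (fun l => v l) = c i := by
      rw [bf_eq_sum hg.symm]
      exact hv3 i
    rw [h6, h7, zero_add]
  · intro H hH
    have h5 := h1 (map (algebraMap K F) H) (by rw [aeval_map_algebraMap]; exact hH)
    rw [aeval_map_algebraMap] at h5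
    exact h5

end Gen

end Pool.Agent.Work.PQP
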