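import Mathlib
import Pool.Agent.Work.MP_b62148_ag.QP.BasicP

/-!
Systems of linear and quadratic forms with a rational point: the next system.
-/

namespace Pool.Agent.Work.PQP

open MvPolynomial

universe u

section Core

variable {F : Type*} [Field F] {V : Type*} [AddCommGroup V] [Module F V]

theorem indep_core {μ : Type*} [Fintype μ] {b : ℕ} (l : μ → V) (p q : Fin (b + 1) → V)
    (h : LinearIndependent F (Sum.elim l (Sum.elim p q))) (c : Fin (b + 1) → F) (hc : c 0 ≠ 0) :
    LinearIndependent F (Sum.elim (Sum.elim l (fun j : Fin b => c 0 • q j.succ - c j.succ • q 0))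
      (fun j : Fin b => c 0 • p j.succ - c j.succ • p 0)) := by
  rw [Fintype.linearIndependent_iff] at h ⊢
  intro g hg
  have key := h (Sum.elim (fun m => g (Sum.inl (Sum.inl m)))
    (Sum.elim (Fin.cons (-∑ j : Fin b, g (Sum.inr j) * c j.succ) (fun j => g (Sum.inr j) * c 0))
      (Fin.cons (-∑ j : Fin b, g (Sum.inl (Sum.inr j)) * c j.succ)
        (fun j => g (Sum.inl (Sum.inr j)) * c 0)))) (by
    simp only [Fintype.sum_sum_type, Sum.elim_inl, Sum.elim_inr, Fin.sum_univ_succ, Fin.cons_zero,
      Fin.cons_succ, smul_sub, smul_smul, Finset.sum_sub_distrib, neg_smul,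
      Finset.sum_smul] at hg ⊢
    rw [← hg]
    abel)
  have k1 : ∀ m, g (Sum.inl (Sum.inl m)) = 0 := fun m => key (Sum.inl m)
  have k2 : ∀ j : Fin b, g (Sum.inr j) * c 0 = 0 := fun j => key (Sum.inr (Sum.inl j.succ))
  have k3 : ∀ j : Fin b, g (Sum.inl (Sum.inr j)) * c 0 = 0 :=
    fun j => key (Sum.inr (Sum.inr j.succ))
  rintro ((m | j) | j)
  · exact k1 m
  · exact (mul_eq_zero.mp (k3 j)).resolve_right hc
  · exact (mul_eq_zero.mp (k2 j)).resolve_right hc

/-- the dimension bound -/
theorem finrank_core [FiniteDimensional F V] (N N0 S S' : Submodule F V) (φ : V →ₗ[F] V)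
    {κ b : ℕ} (hN : ∀ x ∈ N, φ x ∈ S ⊔ S') (hN0 : ∀ x ∈ N, φ x ∈ S → x ∈ N0)
    (h0 : Module.finrank F N0 ≤ κ) (hS' : Module.finrank F S' ≤ b) :
    Module.finrank F N ≤ κ + b := by
  classical
  let ψ : N →ₗ[F] V ⧸ S := S.mkQ ∘ₗ φ ∘ₗ N.subtype
  have h1 := LinearMap.finrank_range_add_finrank_ker ψ
  have h2 : LinearMap.range ψ ≤ S'.map S.mkQ := by
    rintro _ ⟨x, rfl⟩
    have h3 := hN x.1 x.2
    obtain ⟨s, hs, s', hs', h4⟩ := Submodule.mem_sup.mp h3
    refine ⟨s', hs', ?_⟩
    show S.mkQ s' = S.mkQ (φ x.1)
    rw [← h4, map_add]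
    have h5 : S.mkQ s = 0 := by
      rw [Submodule.mkQ_apply, Submodule.Quotient.mk_eq_zero]
      exact hs
    rw [h5, zero_add]
  have h3 : Module.finrank F (LinearMap.range ψ) ≤ b :=
    (Submodule.finrank_mono h2).trans ((Submodule.finrank_map_le _ _).trans hS')
  have h4 : Module.finrank F (LinearMap.ker ψ) ≤ κ := by
    refine le_trans ?_ h0
    refine LinearMap.finrank_le_finrank_of_injective
      (f := (((N.subtype) ∘ₗ (LinearMap.ker ψ).subtype).codRestrict N0 ?_)) ?_
    · intro x
      refine hN0 _ x.1.2 ?_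
      have h5 : ψ x.1 = 0 := x.2
      have h6 : S.mkQ (φ x.1.1) = 0 := h5
      rw [Submodule.mkQ_apply, Submodule.Quotient.mk_eq_zero] at h6
      exact h6
    · intro x y hxy
      have h5 := congrArg Subtype.val hxy
      apply Subtype.ext
      apply Subtype.ext
      exact h5
  omega

end Core

section Comp

variable {K : Type*} [Field K] {K' : Type*} [Field K'] [Algebra K K'] {σ : Type*} [Fintype σ]
  {μ : Type*} {b : ℕ} {F : Type*} [Field F] [Algebra K F] [Algebra K' F] [IsScalarTower K K' F]

omit [Fintype σ] in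
theorem cv_cv (v : σ → K) : cv F (cv K' v) = (cv F v : σ → F) := by
  funext l
  exact (IsScalarTower.algebraMap_apply K K' F (v l)).symm

theorem ln_cv (L : σ → K) (x : σ → F) : ln (cv K' L) x = ln L x := by
  simp only [ln, cv]
  refine Finset.sum_congr rfl fun l _ => ?_
  rw [← IsScalarTower.algebraMap_apply K K' F]

theorem cv_mv (A : Matrix σ σ K') (v : σ → K') : cv F (mv A v) = (mv A (cv F v) : σ → F) := by
  funext l
  simp only [cv, mv, map_sum, map_mul, Algebra.algebraMap_self, RingHom.id_apply]

theorem mv_nextA (A : Fin (b + 1) → Matrix σ σ K) (f : Fin (b + 1) → K') (j : Fin b)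
    (x : σ → F) : (mv (nextA A f j) x : σ → F) =
      algebraMap K' F (f 0) • mv (A j.succ) x - algebraMap K' F (f j.succ) • mv (A 0) x := by
  funext l
  simp only [mv, nextA, Matrix.of_apply, Pi.sub_apply, Pi.smul_apply, smul_eq_mul, map_sub,
    map_mul, Finset.mul_sum, sub_mul, Finset.sum_sub_distrib]
  congr 1
  · refine Finset.sum_congr rfl fun l' _ => ?_
    rw [← IsScalarTower.algebraMap_apply K K' F, mul_assoc]
  · refine Finset.sum_congr rfl fun l' _ => ?_
    rw [← IsScalarTower.algebraMap_apply K K' F, mul_assoc]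

theorem bf_nextA (A : Fin (b + 1) → Matrix σ σ K) (f : Fin (b + 1) → K') (j : Fin b)
    (x y : σ → F) : bf (nextA A f j) x y =
      algebraMap K' F (f 0) * bf (A j.succ) x y - algebraMap K' F (f j.succ) * bf (A 0) x y := by
  unfold bf
  rw [mv_nextA]
  simp only [Pi.sub_apply, Pi.smul_apply, smul_eq_mul, Finset.mul_sum, mul_sub,
    Finset.sum_sub_distrib]
  congr 1
  · exact Finset.sum_congr rfl fun l _ => by ring
  · exact Finset.sum_congr rfl fun l _ => by ring

theorem ln_mv (A : Matrix σ σ K) (v : σ → K) (x : σ → F) : ln (mv A v) x = bf A x (cv F v) := by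
  simp only [ln, mv, bf, cv, map_sum, map_mul, Algebra.algebraMap_self, RingHom.id_apply]
  exact Finset.sum_congr rfl fun l _ => mul_comm _ _

end Comp

section Lin

variable {K : Type u} [Field K] [CharZero K] {σ : Type} [Fintype σ] {μ : Type} [Fintype μ] {b : ℕ}
  {L : μ → σ → K} {y : σ → K} {κ : ℕ}

omit [CharZero K] in
/-- [P3c] smooth points of the new system -/
theorem smooth_next {A : Fin (b + 1) → Matrix σ σ K} {K' : Type u} [Field K'] [Algebra K K']
    (f : Fin (b + 1) → K') (hf : f 0 ≠ 0) {F : Type u} [Field F] [Algebra K F] [Algebra K' F]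
    [IsScalarTower K K' F] (x : σ → F) (h : Indep2 L A x (cv F y)) :
    Smooth (nextL L A y f) (nextA A f) x := by
  have hf' : (fun i => algebraMap K' F (f i)) 0 ≠ 0 := by
    show algebraMap K' F (f 0) ≠ 0
    intro h0
    exact hf ((map_eq_zero _).mp h0)
  have h1 := indep_core (fun m => cv F (L m)) (fun i => mv (A i) x) (fun i => mv (A i) (cv F y)) h
    (fun i => algebraMap K' F (f i)) hf'
  unfold Smooth
  have e1 : (Sum.elim (fun m => cv F (nextL L A y f m)) (fun i => mv (nextA A f i) x) :
      (μ ⊕ Fin b) ⊕ Fin b → σ → F) = Sum.elim (Sum.elim (fun m => cv F (L m))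
        (fun j : Fin b => algebraMap K' F (f 0) • mv (A j.succ) (cv F y) -
          algebraMap K' F (f j.succ) • mv (A 0) (cv F y)))
      (fun j : Fin b => algebraMap K' F (f 0) • mv (A j.succ) x -
          algebraMap K' F (f j.succ) • mv (A 0) x) := by
    funext i
    rcases i with (m | j) | j
    · show cv F (cv K' (L m)) = _
      rw [cv_cv]
      rfl
    · show cv F (mv (nextA A f j) (cv K' y)) = _
      rw [cv_mv, cv_cv, mv_nextA]
      rfl
    · show mv (nextA A f j) x = _
      rw [mv_nextA]
      rfl
  rw [e1]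
  exact h1

omit [CharZero K] in
/-- [P3b] the new system is good -/
theorem good_next {A : Fin (b + 1) → Matrix σ σ K} (hg : Good L A y κ) {K' : Type u} [Field K']
    [Algebra K K'] (z : σ → K') (h1 : ∀ m, ln (L m) z = 0)
    (h2 : ∀ i, bf (A i) (cv K' y) z = 0) (h3 : bf (A 0) z z ≠ 0)
    (h4 : Indep2 L A z (cv K' y)) :
    Good (nextL L A y (fun i => bf (A i) z z)) (nextA A (fun i => bf (A i) z z)) z (κ + b) where
  symm := by
    intro i l l'
    simp only [nextA, Matrix.of_apply]
    rw [hg.symm i.succ l l', hg.symm 0 l l']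
  mem := by
    refine ⟨?_, fun j => ?_⟩
    · rintro (m | j)
      · show ln (cv K' (L m)) z = 0
        rw [ln_cv, h1]
      · show ln (mv (nextA A (fun i => bf (A i) z z) j) (cv K' y)) z = 0
        have e : ∀ i, bf (A i) z (cv K' y) = 0 := fun i => by
          rw [bf_comm (hg.symm i)]
          exact h2 i
        rw [ln_mv, bf_nextA, cv_cv, e, e]
        simp
    · rw [bf_nextA]
      simp only [Algebra.algebraMap_self, RingHom.id_apply]
      ring
  indep := smooth_next (fun i => bf (A i) z z) h3 z h4
  ker := by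
    intro F _ _ w hw
    let _ : Algebra K F := ((algebraMap K' F).comp (algebraMap K K')).toAlgebra
    have _ : IsScalarTower K K' F := IsScalarTower.of_algebraMap_eq fun _ => rfl
    set f : Fin (b + 1) → K' := fun i => bf (A i) z z with hf
    have hf0 : algebraMap K' F (f 0) ≠ 0 := fun h0 => h3 ((map_eq_zero _).mp h0)
    let w' : Fin (b + 1) → F := Fin.cons (-∑ j : Fin b, w j * algebraMap K' F (f j.succ))
      (fun j => w j * algebraMap K' F (f 0))
    have hw' : w' ≠ 0 := by
      intro h0
      apply hw
      funext j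
      have h5 : w' j.succ = 0 := congrFun h0 j.succ
      simp only [w', Fin.cons_succ] at h5
      exact (mul_eq_zero.mp h5).resolve_right hf0
    have hcomb : ∀ x : σ → F, ∑ j, w j • mv (nextA A f j) x = ∑ i, w' i • mv (A i) x := by
      intro x
      rw [Fin.sum_univ_succ]
      simp only [w', Fin.cons_zero, Fin.cons_succ, mv_nextA, smul_sub, smul_smul,
        Finset.sum_sub_distrib, neg_smul, Finset.sum_smul]
      abel
    let φ : (σ → F) →ₗ[F] (σ → F) :=
      { toFun := fun x => ∑ i, w' i • mv (A i) x
        map_add' := by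
          intro x x'
          rw [← Finset.sum_add_distrib]
          refine Finset.sum_congr rfl fun i _ => ?_
          rw [← smul_add]
          congr 1
          funext l
          simp only [mv, Pi.add_apply, mul_add, Finset.sum_add_distrib]
        map_smul' := by
          intro c x
          rw [RingHom.id_apply, Finset.smul_sum]
          refine Finset.sum_congr rfl fun i _ => ?_
          rw [smul_comm c (w' i)]
          congr 1
          funext l
          simp only [mv, Pi.smul_apply, smul_eq_mul, Finset.mul_sum]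
          exact Finset.sum_congr rfl fun l _ => by ring }
    refine finrank_core (Ker (nextL L A y f) (nextA A f) w) (Ker L A w')
      (Submodule.span F (Set.range fun m => cv F (L m)))
      (Submodule.span F (Set.range fun j => cv F (mv (nextA A f j) (cv K' y)))) φ ?_ ?_
      (hg.ker F w' hw') ?_
    · rintro x ⟨-, hx⟩
      rw [hcomb] at hx
      refine (Submodule.span_le.mpr ?_) hx
      rintro _ ⟨m | j, rfl⟩
      · apply Submodule.mem_sup_left
        apply Submodule.subset_span
        refine ⟨m, ?_⟩
        show cv F (L m) = cv F (cv K' (L m))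
        rw [cv_cv]
      · apply Submodule.mem_sup_right
        apply Submodule.subset_span
        exact ⟨j, rfl⟩
    · rintro x ⟨hx, -⟩ hφ
      refine ⟨fun m => ?_, hφ⟩
      have h5 := hx (Sum.inl m)
      have h6 : ln (cv K' (L m)) x = 0 := h5
      rw [ln_cv] at h6
      exact h6
    · refine (finrank_range_le_card _).trans ?_
      simp
  num := by
    have h5 := hg.num
    simp only [Fintype.card_sum, Fintype.card_fin]
    have h6 : (b + 1) ^ 2 = b ^ 2 + 2 * b + 1 := by ring
    omega

end Lin

end Pool.Agent.Work.PQP
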