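import Mathlib
import Pool.Agent.Work.MP_b62148_ag.QP.GenP
import Pool.Agent.Work.MP_b62148_ag.QP.NextP
import Pool.Agent.Work.MP_b62148_ag.QP.BaseP

/-!
The induction step.
-/

namespace Pool.Agent.Work.PQP

open MvPolynomial

universe u

section Res

variable {K : Type*} [Field K] {σ : Type*} [Fintype σ] {R : Type*} [CommRing R] [Algebra K R]

/-- the residual point of the line through `y` and `w` -/
def res (A : Matrix σ σ K) (y : σ → K) (w : σ → R) : σ → R :=
  bf A w w • cv R y - (2 * bf A (cv R y) w) • w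

theorem res_map {S : Type*} [CommRing S] [Algebra K S] (φ : R →ₐ[K] S) (A : Matrix σ σ K)
    (y : σ → K) (w : σ → R) (l : σ) : φ (res A y w l) = res A y (fun l => φ (w l)) l := by
  have h1 : ∀ l, φ (cv R y l) = cv S y l := fun l => AlgHom.commutes φ (y l)
  simp only [res, Pi.sub_apply, Pi.smul_apply, smul_eq_mul, map_sub, map_mul, bf_map, h1, map_ofNat]

theorem res_self (A : Matrix σ σ K) (y : σ → K) (w : σ → R) (hw : bf A w w = 0) :
    res A y w = (-(2 * bf A (cv R y) w)) • w := by
  rw [res, hw, zero_smul, zero_sub, neg_smul]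

end Res

section Ring

variable {K : Type*} [Field K] {K' : Type*} [Field K'] [Algebra K K'] {σ : Type*} [Fintype σ]
  {μ : Type*} {b : ℕ} {R : Type*} [CommRing R] [Algebra K R] [Algebra K' R] [IsScalarTower K K' R]

omit [Fintype σ] in
theorem cv_cvR (v : σ → K) : cv R (cv K' v) = (cv R v : σ → R) := by
  funext l
  exact (IsScalarTower.algebraMap_apply K K' R (v l)).symm

theorem ln_cvR (L : σ → K) (x : σ → R) : ln (cv K' L) x = ln L x := by
  simp only [ln, cv]
  refine Finset.sum_congr rfl fun l _ => ?_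
  rw [← IsScalarTower.algebraMap_apply K K' R]

theorem mv_nextAR (A : Fin (b + 1) → Matrix σ σ K) (f : Fin (b + 1) → K') (j : Fin b)
    (x : σ → R) : (mv (nextA A f j) x : σ → R) =
      algebraMap K' R (f 0) • mv (A j.succ) x - algebraMap K' R (f j.succ) • mv (A 0) x := by
  funext l
  simp only [mv, nextA, Matrix.of_apply, Pi.sub_apply, Pi.smul_apply, smul_eq_mul, map_sub,
    map_mul, Finset.mul_sum, sub_mul, Finset.sum_sub_distrib]
  congr 1
  · refine Finset.sum_congr rfl fun l' _ => ?_
    rw [← IsScalarTower.algebraMap_apply K K' R, mul_assoc]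
  · refine Finset.sum_congr rfl fun l' _ => ?_
    rw [← IsScalarTower.algebraMap_apply K K' R, mul_assoc]

theorem bf_nextAR (A : Fin (b + 1) → Matrix σ σ K) (f : Fin (b + 1) → K') (j : Fin b)
    (x y : σ → R) : bf (nextA A f j) x y =
      algebraMap K' R (f 0) * bf (A j.succ) x y - algebraMap K' R (f j.succ) * bf (A 0) x y := by
  unfold bf
  rw [mv_nextAR]
  simp only [Pi.sub_apply, Pi.smul_apply, smul_eq_mul, Finset.mul_sum, mul_sub,
    Finset.sum_sub_distrib]
  congr 1
  · exact Finset.sum_congr rfl fun l _ => by ring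
  · exact Finset.sum_congr rfl fun l _ => by ring

theorem ln_mvR (A : Matrix σ σ K') (v : σ → K) (x : σ → R) :
    ln (mv A (cv K' v)) x = bf A x (cv R v) := by
  simp only [ln, mv, bf, cv, map_sum, map_mul, Algebra.algebraMap_self, RingHom.id_apply]
  refine Finset.sum_congr rfl fun l _ => ?_
  rw [mul_comm]
  congr 1
  refine Finset.sum_congr rfl fun l' _ => ?_
  rw [← IsScalarTower.algebraMap_apply K K' R]

/-- the residual points are zeros of the system -/
theorem res_onX {L : μ → σ → K} {A : Fin (b + 1) → Matrix σ σ K} {y : σ → K}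
    (hs : ∀ i l l', A i l l' = A i l' l) (hy : OnX L A y) (f : Fin (b + 1) → K') (hf : f 0 ≠ 0)
    (w : σ → R) (hw : OnX (nextL L A y f) (nextA A f) w) : OnX L A (res (A 0) y w) := by
  obtain ⟨hw1, hw2⟩ := hw
  have hyL : ∀ m, ln (L m) (cv R y) = 0 := by
    intro m
    have h1 := ln_map (Algebra.ofId K R) (L m) y
    rw [hy.1, map_zero] at h1
    exact h1.symm
  have hyA : ∀ i, bf (A i) (cv R y) (cv R y) = 0 := by
    intro i
    have h1 := bf_map (Algebra.ofId K R) (A i) y y
    rw [hy.2, map_zero] at h1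
    exact h1.symm
  have hwL : ∀ m, ln (L m) w = 0 := by
    intro m
    have h1 : ln (cv K' (L m)) w = 0 := hw1 (Sum.inl m)
    rw [ln_cvR] at h1
    exact h1
  have hwB : ∀ j : Fin b, algebraMap K' R (f 0) * bf (A j.succ) w (cv R y) -
      algebraMap K' R (f j.succ) * bf (A 0) w (cv R y) = 0 := by
    intro j
    have h1 : ln (mv (nextA A f j) (cv K' y)) w = 0 := hw1 (Sum.inr j)
    rw [ln_mvR, bf_nextAR] at h1
    exact h1
  have hwA : ∀ j : Fin b, algebraMap K' R (f 0) * bf (A j.succ) w w -
      algebraMap K' R (f j.succ) * bf (A 0) w w = 0 := by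
    intro j
    have h1 := hw2 j
    rw [bf_nextAR] at h1
    exact h1
  have hexp : ∀ i, bf (A i) (res (A 0) y w) (res (A 0) y w) =
      4 * bf (A 0) w (cv R y) * (bf (A 0) w (cv R y) * bf (A i) w w -
        bf (A 0) w w * bf (A i) w (cv R y)) := by
    intro i
    unfold res
    rw [bf_comm (hs 0) (cv R y) w]
    rw [bf_sub_left, bf_sub_right, bf_sub_right, bf_smul_left, bf_smul_left, bf_smul_left,
      bf_smul_left, bf_smul_right, bf_smul_right, bf_smul_right, bf_smul_right, hyA,
      bf_comm (hs i) (cv R y) w]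
    ring
  refine ⟨fun m => ?_, fun i => ?_⟩
  · unfold res
    rw [ln_sub, ln_smul, ln_smul, hyL, hwL]
    ring
  · rw [hexp]
    refine Fin.cases ?_ (fun j => ?_) i
    · ring
    · have h1 : algebraMap K' R (f 0) * (bf (A 0) w (cv R y) * bf (A j.succ) w w -
          bf (A 0) w w * bf (A j.succ) w (cv R y)) = 0 := by
        linear_combination bf (A 0) w (cv R y) * hwA j - bf (A 0) w w * hwB j
      have h2 : bf (A 0) w (cv R y) * bf (A j.succ) w w -
          bf (A 0) w w * bf (A j.succ) w (cv R y) = 0 := by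
        have h3 : algebraMap K' R (f 0)⁻¹ * algebraMap K' R (f 0) = 1 := by
          rw [← map_mul, inv_mul_cancel₀ hf, map_one]
        calc bf (A 0) w (cv R y) * bf (A j.succ) w w -
            bf (A 0) w w * bf (A j.succ) w (cv R y)
            = (algebraMap K' R (f 0)⁻¹ * algebraMap K' R (f 0)) * (bf (A 0) w (cv R y) *
              bf (A j.succ) w w - bf (A 0) w w * bf (A j.succ) w (cv R y)) := by
              rw [h3, one_mul]
          _ = 0 := by rw [mul_assoc, h1, mul_zero]
      rw [h2, mul_zero]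

end Ring

section Step

variable {K : Type u} [Field K] [CharZero K] {σ : Type} [Fintype σ] {μ : Type} [Fintype μ] {b : ℕ}
  {L : μ → σ → K} {A : Fin (b + 1) → Matrix σ σ K} {y : σ → K} {κ : ℕ}

omit [CharZero K] [Fintype μ] in
/-- independence passes to extensions -/
theorem Indep2.map {E Ω : Type*} [Field E] [Field Ω] [Algebra K E] [Algebra K Ω] (i : E →ₐ[K] Ω)
    {η : σ → E} (h : Indep2 L A η (cv E y)) : Indep2 L A (fun l => i (η l)) (cv Ω y) := by
  let i1 : Algebra E Ω := i.toRingHom.toAlgebra
  unfold Indep2 at h ⊢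
  have h1 := linearIndependent_algebraMap_comp_iff (S := Ω) |>.mpr h
  have e1 : (Sum.elim (fun m => cv Ω (L m)) (Sum.elim (fun j => mv (A j) fun l => i (η l))
      (fun j => mv (A j) (cv Ω y))) : μ ⊕ Fin (b + 1) ⊕ Fin (b + 1) → σ → Ω) =
      fun p => algebraMap E Ω ∘ (Sum.elim (fun m => cv E (L m)) (Sum.elim (fun j => mv (A j) η)
      (fun j => mv (A j) (cv E y))) : μ ⊕ Fin (b + 1) ⊕ Fin (b + 1) → σ → E) p := by
    funext p l
    rcases p with m | j | j
    · exact (i.commutes (L m l)).symm
    · exact (mv_map i (A j) η l).symm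
    · have h2 := mv_map i (A j) (cv E y) l
      have h3 : (fun l => i (cv E y l)) = cv Ω y := by
        funext l
        exact i.commutes (y l)
      rw [h3] at h2
      exact h2.symm
  rw [e1]
  exact h1

omit [CharZero K] [Fintype μ] in
theorem Indep2.smul {Ω : Type*} [Field Ω] [Algebra K Ω] {x y' : σ → Ω} (h : Indep2 L A x y')
    {s : Ω} (hs : s ≠ 0) : Indep2 L A (s • x) y' := by
  unfold Indep2 at h ⊢
  have h1 := h.units_smul (Sum.elim (fun _ => 1) (Sum.elim (fun _ => Units.mk0 s hs)
    (fun _ => 1)) : μ ⊕ Fin (b + 1) ⊕ Fin (b + 1) → Ωˣ)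
  have e1 : (Sum.elim (fun m => cv Ω (L m)) (Sum.elim (fun i => mv (A i) (s • x))
      (fun i => mv (A i) y')) : μ ⊕ Fin (b + 1) ⊕ Fin (b + 1) → σ → Ω) =
      (Sum.elim (fun _ => 1) (Sum.elim (fun _ => Units.mk0 s hs)
        (fun _ => 1)) : μ ⊕ Fin (b + 1) ⊕ Fin (b + 1) → Ωˣ) •
      (Sum.elim (fun m => cv Ω (L m)) (Sum.elim (fun i => mv (A i) x)
        (fun i => mv (A i) y')) : μ ⊕ Fin (b + 1) ⊕ Fin (b + 1) → σ → Ω) := by
    funext p
    rcases p with m | j | j
    · show cv Ω (L m) = (1 : Ωˣ) • cv Ω (L m)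
      rw [one_smul]
    · show mv (A j) (s • x) = (Units.mk0 s hs) • mv (A j) x
      rw [mv_smul]; rfl
    · show mv (A j) y' = (1 : Ωˣ) • mv (A j) y'
      rw [one_smul]
  rw [e1]
  exact h1

/-- [P6] the induction step -/
theorem step (ih : ∀ {K' : Type u} [Field K'] [CharZero K'] {μ' : Type} [Fintype μ']
      (L' : μ' → σ → K') (A' : Fin b → Matrix σ σ K') (z : σ → K') (κ' : ℕ),
      Good L' A' z κ' → Para L' A')
    (hg : Good L A y κ) : Para L A := by
  classical
  obtain ⟨z, hz1, hz2, hz3, hz4⟩ := exists_z hg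
  have hchar : CharZero (FractionRing (MvPolynomial σ K)) :=
    charZero_of_injective_algebraMap (algebraMap K (FractionRing (MvPolynomial σ K))).injective
  have hf0 : bf (A 0) z z ≠ 0 := by
    intro h
    exact (hz4.ne_zero 0) h
  have hgn := good_next hg z hz1 hz2 hf0 hz3
  obtain ⟨f, hf⟩ : ∃ f : Fin (b + 1) → FractionRing (MvPolynomial σ K),
    f = fun i => bf (A i) z z := ⟨_, rfl⟩
  rw [← hf] at hgn hz4
  have hff : f 0 ≠ 0 := by rw [hf]; exact hf0
  obtain ⟨m, P', hP', hdom⟩ := ih _ _ z _ hgn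
  -- the residual map
  have hY : OnX L A (res (A 0) y P') := res_onX hg.symm hg.mem f hff P' hP'
  obtain ⟨δ, hδ, n, P, hP⟩ := exists_clear (res (A 0) y P')
  have hsmul : (fun l => C δ * res (A 0) y P' l) =
      (C δ : MvPolynomial (Fin m) (FractionRing (MvPolynomial σ K))) • res (A 0) y P' := by
    funext l
    rfl
  refine ⟨n, P, ⟨fun j => ?_, fun i => ?_⟩, ?_⟩
  · rw [← aeval_lp, hP, hsmul, aeval_lp, ln_smul, hY.1, mul_zero]
  · rw [← aeval_qp, hP, hsmul, aeval_qp, bf_smul_left, bf_smul_right, hY.2, mul_zero, mul_zero]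
  · intro H hH F _ _ _ x hx hxs
    obtain ⟨E, i1, i2, η, hη1, hη2, hη3, hη4⟩ := exists_eta hg x hx hxs
    apply hη4
    obtain ⟨Ω, j1, j2, j3, j4, j5, i, hi⟩ := amalgam _ _ hη3 hz4
    obtain ⟨x', hx'⟩ : ∃ x' : σ → Ω, x' = fun l => i (η l) := ⟨_, rfl⟩
    have hcv : (fun l => i (cv E y l)) = cv Ω y := by
      funext l
      exact i.commutes (y l)
    have hβ : ∀ j, bf (A j) (cv Ω y) x' = algebraMap _ Ω (f j) := by
      intro j
      rw [← hi, bf_map, hcv, hx']
    have hβ' : ∀ j, bf (A j) x' (cv Ω y) = algebraMap _ Ω (f j) := by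
      intro j
      rw [bf_comm (hg.symm j), hβ]
    have hxx : ∀ j, bf (A j) x' x' = 0 := by
      intro j
      have := bf_map i (A j) η η
      rw [hη1.2, map_zero] at this
      rw [hx']
      exact this.symm
    have hxL : ∀ j, ln (L j) x' = 0 := by
      intro j
      have := ln_map i (L j) η
      rw [hη1.1, map_zero] at this
      rw [hx']
      exact this.symm
    have hδ0 : algebraMap _ Ω δ ≠ 0 := by
      intro h
      exact hδ ((map_eq_zero _).mp h)
    have hβ0 : algebraMap _ Ω (f 0) ≠ 0 := by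
      intro h
      exact hff ((map_eq_zero _).mp h)
    have hcharΩ : CharZero Ω := charZero_of_injective_algebraMap (algebraMap K Ω).injective
    obtain ⟨s, hs⟩ := IsAlgClosed.exists_pow_nat_eq
      (-(2 * algebraMap _ Ω (f 0) * algebraMap _ Ω δ)⁻¹) (n := 2) (by norm_num)
    have hne : (2 * algebraMap _ Ω (f 0) * algebraMap _ Ω δ) ≠ 0 :=
      mul_ne_zero (mul_ne_zero two_ne_zero hβ0) hδ0
    have hs0 : s ≠ 0 := by
      intro h
      rw [h] at hs
      have : (0 : Ω) ^ 2 = 0 := by norm_num
      rw [this] at hs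
      exact hne (inv_eq_zero.mp (neg_eq_zero.mp hs.symm))
    -- the polynomial over the extension
    let H' : MvPolynomial σ (FractionRing (MvPolynomial σ K)) :=
      aeval (fun l => C δ * res (A 0) y
        (X : σ → MvPolynomial σ (FractionRing (MvPolynomial σ K))) l) H
    have hH' : ∀ {R : Type u} [CommRing R] [Algebra (FractionRing (MvPolynomial σ K)) R]
        [Algebra K R] [IsScalarTower K (FractionRing (MvPolynomial σ K)) R] (w : σ → R),
        aeval w H' = aeval (fun l => algebraMap _ R δ * res (A 0) y w l) H := by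
      intro R _ _ _ _ w
      have h1 := comp_aeval_apply (fun l => C δ * res (A 0) y
        (X : σ → MvPolynomial σ (FractionRing (MvPolynomial σ K))) l)
        ((aeval w : MvPolynomial σ (FractionRing (MvPolynomial σ K)) →ₐ[_] R).restrictScalars K) H
      refine h1.trans ?_
      congr 2
      funext l
      rw [map_mul, res_map]
      have h2 : ((aeval w : MvPolynomial σ (FractionRing (MvPolynomial σ K)) →ₐ[_]
          R).restrictScalars K) (C δ) = algebraMap _ R δ := by
        show aeval w (C δ) = _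
        rw [aeval_C]
      have h3 : (fun l => ((aeval w : MvPolynomial σ (FractionRing (MvPolynomial σ K)) →ₐ[_]
          R).restrictScalars K) (X l)) = w := by
        funext l
        show aeval w (X l) = _
        rw [aeval_X]
      rw [h2, h3]
    have hPH : aeval P' H' = 0 := by
      rw [hH']
      exact (hP H).mp hH
    have hfin := hdom H' hPH Ω (s • x') (by
      constructor
      · rintro (j | j)
        · show ln (cv _ (L j)) (s • x') = 0
          rw [ln_cvR, ln_smul, hxL, mul_zero]
        · show ln (mv (nextA A f j) (cv _ y)) (s • x') = 0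
          rw [ln_mvR, bf_nextAR, bf_smul_left, bf_smul_left, hβ', hβ']
          ring
      · intro j
        rw [bf_nextAR, bf_smul_left, bf_smul_left, bf_smul_right, bf_smul_right, hxx, hxx]
        ring) (by
      refine smooth_next f hff (s • x') ?_
      refine Indep2.smul ?_ hs0
      rw [hx']
      exact hη2.map i)
    rw [hH'] at hfin
    have hvec : (fun l => algebraMap _ Ω δ * res (A 0) y (s • x') l) = x' := by
      have h0 : bf (A 0) (s • x') (s • x') = 0 := by
        rw [bf_smul_left, bf_smul_right, hxx]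
        ring
      rw [res_self _ _ _ h0]
      funext l
      simp only [Pi.smul_apply, smul_eq_mul, bf_smul_right, hβ]
      have h1 : algebraMap _ Ω δ * (-(2 * (s * algebraMap _ Ω (f 0))) * (s * x' l)) =
          -(s ^ 2 * (2 * algebraMap _ Ω (f 0) * algebraMap _ Ω δ)) * x' l := by ring
      rw [h1, hs]
      linear_combination x' l * inv_mul_cancel₀ hne
    rw [hvec, hx'] at hfin
    have h9 := comp_aeval_apply η i H
    rw [hfin] at h9
    exact (map_eq_zero i).mp h9

end Step

end Pool.Agent.Work.PQP
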