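import Mathlib
import Pool.Agent.Work.MP_b62148_ag.QP.StepP
import Pool.Agent.Work.MP_b62148_ag.QP.BaseP
import Pool.Agent.Work.MP_b62148_ag.QP.InitP

/-!
Smooth complete intersections of quadrics with a rational point: the main theorem.
-/

namespace Pool.Agent.Work.PQP

open MvPolynomial

universe u

/-- the main theorem for good systems -/
theorem main {σ : Type} [Fintype σ] (b : ℕ) : ∀ {K : Type u} [Field K] [CharZero K] {μ : Type}
    [Fintype μ] (L : μ → σ → K) (A : Fin b → Matrix σ σ K) (y : σ → K) (κ : ℕ),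
    Good L A y κ → Para L A := by
  induction b with
  | zero => exact fun L A y κ h => base h
  | succ b ih => exact fun L A y κ h => step (fun L' A' z κ' h' => ih L' A' z κ' h') h

/-- a smooth intersection of `a` quadrics with a rational point is unirational if `n ≥ a ^ 2 + 2` -/
theorem final {K : Type u} [Field K] [CharZero K] {σ : Type} [Fintype σ] {a : ℕ}
    (G : Fin a → MvPolynomial σ K) (hG : ∀ i, (G i).IsHomogeneous 2)
    (hs : Pool.Agent.Work.PDC.SmoothCI G) (ha : 1 ≤ a) (hn : a ^ 2 + 3 ≤ Fintype.card σ)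
    (y : σ → K) (hy0 : y ≠ 0) (hy : ∀ i, aeval y (G i) = 0) :
    ∃ (m : ℕ) (P : σ → MvPolynomial (Fin m) K), (∀ i, aeval P (G i) = 0) ∧
      ∀ H : MvPolynomial σ K, aeval P H = 0 →
        ∀ x : σ → AlgebraicClosure K, (∀ i, aeval x (G i) = 0) → aeval x H = 0 := by
  obtain ⟨A, hA, hgood, hsm⟩ := good_of_smooth G hG hs ha hn y hy0 hy
  obtain ⟨m, P, hP, hdom⟩ := main a _ A y (a - 1) hgood
  have hmain : ∀ H : MvPolynomial σ K, aeval P H = 0 →
      ∀ x : σ → AlgebraicClosure K, x ≠ 0 → (∀ i, aeval x (G i) = 0) → aeval x H = 0 := by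
    intro H hH x hx0 hx
    exact hdom H hH (AlgebraicClosure K) x ⟨fun m => m.elim0, fun i => by rw [hA]; exact hx i⟩
      (hsm _ x hx0 hx)
  refine ⟨m, P, fun i => by rw [← hA]; exact hP.2 i, fun H hH x hx => ?_⟩
  by_cases hx0 : x = 0
  · -- the line through the base point
    subst hx0
    refine aeval_zero_of_line (cv (AlgebraicClosure K) y) H fun t ht => ?_
    refine hmain H hH _ ?_ ?_
    · intro h
      apply hy0
      funext l
      have h1 := congrFun h l
      simp only [Pi.smul_apply, smul_eq_mul, Pi.zero_apply, cv] at h1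
      have h2 := (mul_eq_zero.mp h1).resolve_left ht
      exact (map_eq_zero _).mp h2
    · intro i
      rw [← hA, bf_smul_left, bf_smul_right]
      have h1 := bf_map (Algebra.ofId K (AlgebraicClosure K)) (A i) y y
      have h2 : bf (A i) y y = 0 := by rw [hA]; exact hy i
      rw [h2, map_zero] at h1
      have h3 : bf (A i) (cv (AlgebraicClosure K) y) (cv (AlgebraicClosure K) y) = 0 := h1.symm
      rw [h3, mul_zero, mul_zero]
  · exact hmain H hH x hx0 hx

end Pool.Agent.Work.PQP
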