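import Mathlib
import Pool.Agent.Work.MP_b62148_ag.QP.FinalP
import Pool.Agent.Work.MP_b62148_ag.QP.RankP

/-!
Complete intersections of quadrics with a smooth rational point: parametrisation and dense smooth
rational points.
-/

namespace Pool.Agent.Work.PQP

open MvPolynomial Pool.Agent.Work.PDC

universe u

/-- independent gradients -/
def Grad {K : Type*} [Field K] {σ : Type*} {a : ℕ} (G : Fin a → MvPolynomial σ K) {F : Type*}
    [Field F] [Algebra K F] (x : σ → F) : Prop :=
  ∀ c : Fin a → F, (∀ l, ∑ i, c i * aeval x (pderiv l (G i)) = 0) → c = 0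

section Minor

variable {K : Type*} [Field K] {σ : Type*} [Fintype σ] {a : ℕ}

/-- the determinant of the gradients on given vectors -/
noncomputable def jd (G : Fin a → MvPolynomial σ K) (d : Fin a → σ → K) : MvPolynomial σ K :=
  (Matrix.of fun i j : Fin a => ∑ l, pderiv l (G i) * C (d j l)).det

theorem aeval_jd (G : Fin a → MvPolynomial σ K) (d : Fin a → σ → K) {R : Type*} [CommRing R]
    [Algebra K R] (x : σ → R) : aeval x (jd G d) =
      (Matrix.of fun i j : Fin a => ∑ l, aeval x (pderiv l (G i)) * algebraMap K R (d j l)).det := by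
  unfold jd
  rw [AlgHom.map_det]
  congr 1
  ext i j
  simp only [AlgHom.mapMatrix_apply, Matrix.map_apply, Matrix.of_apply, map_sum, map_mul, aeval_C]

theorem grad_of_jd (G : Fin a → MvPolynomial σ K) (d : Fin a → σ → K) {F : Type*} [Field F]
    [Algebra K F] (x : σ → F) (h : aeval x (jd G d) ≠ 0) : Grad G x := by
  intro c hc
  rw [aeval_jd] at h
  refine Matrix.eq_zero_of_vecMul_eq_zero h ?_
  funext j
  rw [Matrix.vecMul, dotProduct]
  simp only [Matrix.of_apply, Finset.mul_sum, Pi.zero_apply]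
  rw [Finset.sum_comm]
  refine Finset.sum_eq_zero fun l _ => ?_
  have h1 : ∑ i, c i * (aeval x (pderiv l (G i)) * algebraMap K F (d j l)) =
      (∑ i, c i * aeval x (pderiv l (G i))) * algebraMap K F (d j l) := by
    rw [Finset.sum_mul]
    exact Finset.sum_congr rfl fun i _ => by ring
  rw [h1, hc l, zero_mul]

theorem exists_jd (G : Fin a → MvPolynomial σ K) (y : σ → K) (hy : Grad G y) :
    ∃ d : Fin a → σ → K, aeval y (jd G d) = 1 := by
  obtain ⟨d, hd⟩ := exists_dual_vec (fun (i : Fin a) (l : σ) => aeval y (pderiv l (G i))) (by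
    rw [Fintype.linearIndependent_iff]
    intro g hg i
    refine congrFun (hy g fun l => ?_) i
    have h1 := congrFun hg l
    simpa [Finset.sum_apply] using h1)
  refine ⟨d, ?_⟩
  rw [aeval_jd]
  have h1 : (Matrix.of fun i j : Fin a => ∑ l, aeval y (pderiv l (G i)) * algebraMap K K (d j l)) =
      1 := by
    ext i j
    rw [Matrix.of_apply, Matrix.one_apply]
    exact hd i j
  rw [h1, Matrix.det_one]

/-- from a dominant polynomial map to the density of the smooth rational points -/
theorem dense_of_dom [Infinite K] (G : Fin a → MvPolynomial σ K) (y : σ → K)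
    (hy : ∀ i, aeval y (G i) = 0) (hyg : Grad G y) {m : ℕ} (P : σ → MvPolynomial (Fin m) K)
    (hP : ∀ i, aeval P (G i) = 0)
    (hdom : ∀ H : MvPolynomial σ K, aeval P H = 0 → ∀ x : σ → AlgebraicClosure K,
      (∀ i, aeval x (G i) = 0) → Grad G x → aeval x H = 0)
    (H : MvPolynomial σ K)
    (hH : ∀ x : σ → K, (∀ i, aeval x (G i) = 0) → Grad G x → aeval x H = 0)
    (x : σ → AlgebraicClosure K) (hx : ∀ i, aeval x (G i) = 0) (hxg : Grad G x) :
    aeval x H = 0 := by
  obtain ⟨d, hd⟩ := exists_jd G y hyg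
  have hev : ∀ (t : Fin m → K) (Q : MvPolynomial σ K), eval t (aeval P Q) =
      aeval (fun i => eval t (P i)) Q := by
    intro t Q
    have h1 := map_aeval' (aeval t : MvPolynomial (Fin m) K →ₐ[K] K) Q P
    simpa [MvPolynomial.aeval_eq_eval] using h1
  have h1 : aeval P (H * jd G d) = 0 := by
    apply MvPolynomial.funext
    intro t
    rw [map_zero, hev, map_mul]
    by_cases hJ : aeval (fun i => eval t (P i)) (jd G d) = 0
    · rw [hJ, mul_zero]
    · rw [hH _ (fun i => by rw [← hev, hP, map_zero]) (grad_of_jd G d _ hJ), zero_mul]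
  rw [map_mul] at h1
  rcases mul_eq_zero.mp h1 with h2 | h2
  · exact hdom H h2 x hx hxg
  · exfalso
    have hval : ∀ Q : MvPolynomial σ K, aeval (fun l => algebraMap K (AlgebraicClosure K) (y l)) Q =
        algebraMap K (AlgebraicClosure K) (aeval y Q) := fun Q =>
      (map_aeval' (Algebra.ofId K (AlgebraicClosure K)) Q y).symm
    have h3 : aeval (fun l => algebraMap K (AlgebraicClosure K) (y l)) (jd G d) = 1 := by
      rw [hval, hd, map_one]
    have h4 := hdom _ h2 (fun l => algebraMap K (AlgebraicClosure K) (y l))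
      (fun i => by rw [hval, hy, map_zero])
      (grad_of_jd G d _ (by rw [h3]; exact one_ne_zero))
    rw [h3] at h4
    exact one_ne_zero h4

end Minor

/-- the parametrisation -/
theorem final_dom {K : Type u} [Field K] [CharZero K] {σ : Type} [Fintype σ] {a : ℕ}
    (G : Fin a → MvPolynomial σ K) (hG : ∀ i, (G i).IsHomogeneous 2) (ha : 1 ≤ a)
    (y : σ → K) (hy0 : y ≠ 0) (hy : ∀ i, aeval y (G i) = 0)
    (hX : (SmoothCI G ∧ a ^ 2 + 3 ≤ Fintype.card σ) ∨ (Grad G y ∧
      ∀ w : Fin a → AlgebraicClosure K, w ≠ 0 → a ^ 2 + 4 ≤ a + (Matrix.of fun l l' : σ =>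
        ∑ i, w i * aeval (0 : σ → AlgebraicClosure K) (pderiv l (pderiv l' (G i)))).rank)) :
    ∃ (m : ℕ) (P : σ → MvPolynomial (Fin m) K), (∀ i, aeval P (G i) = 0) ∧
      ∀ H : MvPolynomial σ K, aeval P H = 0 → ∀ x : σ → AlgebraicClosure K,
        (∀ i, aeval x (G i) = 0) → Grad G x → aeval x H = 0 := by
  rcases hX with ⟨hs, hn⟩ | ⟨hyg, hr⟩
  · obtain ⟨A, hA, hgood, hsm⟩ := good_of_smooth G hG hs ha hn y hy0 hy
    obtain ⟨m, P, hP, hdom⟩ := main a _ A y (a - 1) hgood
    refine ⟨m, P, fun i => by rw [← hA]; exact hP.2 i, fun H hH x hx hxg => ?_⟩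
    refine hdom H hH (AlgebraicClosure K) x ⟨fun m => m.elim0, fun i => by rw [hA]; exact hx i⟩
      (hsm _ x ?_ hx)
    rintro rfl
    have h1 := hxg (fun _ => 1) (by
      intro l
      refine Finset.sum_eq_zero fun i _ => ?_
      rw [grad_gm _ (hG i)]
      simp [mv])
    exact one_ne_zero (congrFun h1 ⟨0, ha⟩)
  · have hgood := good_of_rank G hG ha hr y hy hyg
    obtain ⟨m, P, hP, hdom⟩ := main a _ _ y _ hgood
    refine ⟨m, P, fun i => by rw [← bf_gm _ (hG i)]; exact hP.2 i, fun H hH x hx hxg => ?_⟩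
    refine hdom H hH (AlgebraicClosure K) x
      ⟨fun m => m.elim0, fun i => by rw [bf_gm _ (hG i)]; exact hx i⟩ ?_
    unfold Smooth
    rw [Fintype.linearIndependent_iff]
    intro g hg
    rw [Fintype.sum_sum_type, Finset.univ_eq_empty, Finset.sum_empty, zero_add] at hg
    have h1 := hxg (fun i => g (Sum.inr i)) (by
      intro l
      have h3 := congrFun hg l
      simp only [Sum.elim_inr, Finset.sum_apply, Pi.smul_apply, smul_eq_mul, Pi.zero_apply] at h3
      have h4 : ∑ i, g (Sum.inr i) * aeval x (pderiv l (G i)) =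
          2 * ∑ i, g (Sum.inr i) * mv (gm (G i)) x l := by
        rw [Finset.mul_sum]
        refine Finset.sum_congr rfl fun i _ => ?_
        rw [grad_gm _ (hG i)]
        ring
      rw [h4, h3, mul_zero])
    rintro (m | i)
    · exact m.elim0
    · exact congrFun h1 i

end Pool.Agent.Work.PQP
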